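import Pool.Agent.Q227.CM.Defs

/-!
# Formulas which measure the length of a chain of modules

All formulas are over the vocabulary with one binary relation symbol. A module of a binary relation
`R` is a set `A` such that `R u w` does not depend on `u ∈ A` for `w ∉ A`. If the modules containing
`x_0` form a chain with `K` members then `le` defines a total preorder with `K` classes, and `D k`
says that the class of `x_2` is `t_k` classes above the class of `x_1`, where `t_0 = 1` and
`t_{k+1} = t_k 2 ^ t_k`.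
-/

set_option autoImplicit false

namespace Pool.Agent.Q227.CM

/-- Formulas over the vocabulary with one binary relation symbol. -/
abbrev F : Type := Fm 0 0 1

/-- The structure of a binary relation. -/
def rel {α : Type} (R : α → α → Prop) : Str 0 0 1 α :=
  (Fin.elim0, fun k => k.elim0, fun _ => R)

/-- `A` is a module of `R`. -/
def IsModule {α : Type} (R : α → α → Prop) (A : Set α) : Prop :=
  ∀ u ∈ A, ∀ v ∈ A, ∀ w, w ∉ A → (R u w ↔ R v w)

/-- Every module containing `x` and `z` contains `y`. -/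
def Le {α : Type} (R : α → α → Prop) (x y z : α) : Prop :=
  ∀ A : Set α, IsModule R A → x ∈ A → z ∈ A → y ∈ A

def imp (φ ψ : F) : F := .neg (.and φ (.neg ψ))
def orr (φ ψ : F) : F := .neg (.and (.neg φ) (.neg ψ))
def iff' (φ ψ : F) : F := .and (imp φ ψ) (imp ψ φ)
def all (i : ℕ) (φ : F) : F := .neg (.ex i (.neg φ))
def allS (i : ℕ) (φ : F) : F := .neg (.exS i (.neg φ))
def adj (i j : ℕ) : F := .bin 0 (.var i) (.var j)
def eqv (i j : ℕ) : F := .eq (.var i) (.var j)
def mm (i X : ℕ) : F := .mem (.var i) X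

section sat

variable {α : Type} {M : Str 0 0 1 α} {v : ℕ → α} {V : ℕ → Set α}

@[simp] theorem sat_neg (φ : F) : Sat M v V (.neg φ) ↔ ¬ Sat M v V φ := Iff.rfl
@[simp] theorem sat_and (φ ψ : F) : Sat M v V (.and φ ψ) ↔ Sat M v V φ ∧ Sat M v V ψ := Iff.rfl
@[simp] theorem sat_ex (i : ℕ) (φ : F) :
    Sat M v V (.ex i φ) ↔ ∃ x, Sat M (Function.update v i x) V φ := Iff.rfl
@[simp] theorem sat_exS (i : ℕ) (φ : F) :
    Sat M v V (.exS i φ) ↔ ∃ X, Sat M v (Function.update V i X) φ := Iff.rfl
@[simp] theorem sat_imp (φ ψ : F) : Sat M v V (imp φ ψ) ↔ (Sat M v V φ → Sat M v V ψ) := by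
  simp [imp]
@[simp] theorem sat_orr (φ ψ : F) : Sat M v V (orr φ ψ) ↔ (Sat M v V φ ∨ Sat M v V ψ) := by
  simp [orr, or_iff_not_imp_left]
@[simp] theorem sat_iff (φ ψ : F) : Sat M v V (iff' φ ψ) ↔ (Sat M v V φ ↔ Sat M v V ψ) := by
  simp [iff', iff_def]
@[simp] theorem sat_all (i : ℕ) (φ : F) :
    Sat M v V (all i φ) ↔ ∀ x, Sat M (Function.update v i x) V φ := by
  simp [all]
@[simp] theorem sat_allS (i : ℕ) (φ : F) :
    Sat M v V (allS i φ) ↔ ∀ X, Sat M v (Function.update V i X) φ := by
  simp [allS]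
@[simp] theorem sat_adj {R : α → α → Prop} (i j : ℕ) :
    Sat (rel R) v V (adj i j) ↔ R (v i) (v j) := Iff.rfl
@[simp] theorem sat_eqv (i j : ℕ) : Sat M v V (eqv i j) ↔ v i = v j := Iff.rfl
@[simp] theorem sat_mm (i X : ℕ) : Sat M v V (mm i X) ↔ v i ∈ V X := Iff.rfl

end sat

/-- `X` is a module. -/
def isMod (X : ℕ) : F :=
  all 10 (all 11 (all 12 (imp (.and (mm 10 X) (.and (mm 11 X) (.neg (mm 12 X))))
    (iff' (adj 10 12) (adj 11 12)))))

theorem sat_isMod {α : Type} {R : α → α → Prop} {v : ℕ → α} {V : ℕ → Set α} (X : ℕ) :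
    Sat (rel R) v V (isMod X) ↔ IsModule R (V X) := by
  simp only [isMod, sat_all, sat_imp, sat_and, sat_mm, sat_neg, sat_iff, sat_adj, ne_eq,
    Function.update_self, Function.update_of_ne, Nat.reduceEqDiff,
    not_false_eq_true, IsModule]
  constructor
  · intro h u hu w hw z hz
    exact h u w z ⟨hu, hw, hz⟩
  · intro h u w z hh
    exact h u hh.1 w hh.2.1 z hh.2.2

/-- Every module containing `x_0` and `x_j` contains `x_i`. -/
def le (i j : ℕ) : F :=
  allS 9 (imp (.and (isMod 9) (.and (mm 0 9) (mm j 9))) (mm i 9))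

theorem sat_le {α : Type} {R : α → α → Prop} {v : ℕ → α} {V : ℕ → Set α} (i j : ℕ) :
    Sat (rel R) v V (le i j) ↔ Le R (v 0) (v i) (v j) := by
  simp only [le, sat_allS, sat_imp, sat_and, sat_isMod, sat_mm, Function.update_self, Le]
  constructor
  · intro h A hA h0 hj
    exact h A ⟨hA, h0, hj⟩
  · intro h A hh
    exact h A hh.1 hh.2.1 hh.2.2

def lt (i j : ℕ) : F := .and (le i j) (.neg (le j i))

/-- The class of `x_i` contains a member of `X`. -/
def memS (i X : ℕ) : F := .ex 7 (.and (mm 7 X) (.and (le 7 i) (le i 7)))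

/-- `φ` with `x_i` and `x_j` in the places of `x_1` and `x_2`. -/
def ap (φ : F) (i j : ℕ) : F :=
  .ex 13 (.and (eqv 13 i) (.ex 14 (.and (eqv 14 j)
    (.ex 1 (.and (eqv 1 13) (.ex 2 (.and (eqv 2 14) φ)))))))

/-- The class of `x_j` is reached from the class of `x_i` by steps described by `φ`. -/
def reach (φ : F) (i j : ℕ) : F :=
  allS 8 (imp (.and (memS i 8) (all 5 (all 6 (imp (.and (memS 5 8) (ap φ 5 6)) (memS 6 8)))))
    (memS j 8))

/-- The class of `x_j` belongs to the block which starts at the class of `x_i`. -/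
def inBlk (φ : F) (i j : ℕ) : F := .and (le i j) (.neg (.ex 6 (.and (ap φ i 6) (le 6 j))))

/-- The segment from `x_i` to `x_j` is long enough for blocks with all patterns. -/
def allPat (φ : F) (i j : ℕ) : F :=
  .exS 0 (allS 1 (.ex 3 (.and (reach φ i 3) (.and (.ex 4 (.and (ap φ 3 4) (le 4 j)))
    (all 4 (all 5 (imp (.and (inBlk φ 3 4) (.and (inBlk φ i 5) (reach φ 5 4)))
      (iff' (memS 4 0) (memS 5 1)))))))))

/-- The yardsticks. -/
def D : ℕ → F
  | 0 => .and (lt 1 2) (all 3 (imp (lt 1 3) (le 2 3)))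
  | k + 1 => .and (allPat (D k) 1 2) (all 8 (imp (allPat (D k) 1 8) (le 2 8)))

/-- The lengths of the yardsticks. -/
def tt : ℕ → ℕ
  | 0 => 1
  | k + 1 => tt k * 2 ^ tt k

theorem tt_pos (k : ℕ) : 0 < tt k := by
  induction k with
  | zero => simp [tt]
  | succ k ih => simp only [tt]; positivity

/-- The modules of `R` containing `x` form a chain with `K` members, and `ρ` numbers the classes. -/
structure Ranked {α : Type} (R : α → α → Prop) (x : α) (K : ℕ) (ρ : α → ℕ) : Prop where
  le_iff : ∀ y z, Le R x y z ↔ ρ y ≤ ρ z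
  range : ∀ i, i < K ↔ ∃ y, ρ y = i

section ranked

variable {α : Type} {R : α → α → Prop} {x : α} {K : ℕ} {ρ : α → ℕ}

theorem Ranked.lt_K (hρ : Ranked R x K ρ) (y : α) : ρ y < K := (hρ.range _).2 ⟨y, rfl⟩

theorem Ranked.ex (hρ : Ranked R x K ρ) {i : ℕ} (h : i < K) : ∃ y, ρ y = i := (hρ.range _).1 h

variable {v : ℕ → α} {V : ℕ → Set α}

theorem sat_le' (hρ : Ranked R x K ρ) (h0 : v 0 = x) (i j : ℕ) :
    Sat (rel R) v V (le i j) ↔ ρ (v i) ≤ ρ (v j) := by
  rw [sat_le, h0, hρ.le_iff]

theorem sat_lt (hρ : Ranked R x K ρ) (h0 : v 0 = x) (i j : ℕ) :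
    Sat (rel R) v V (lt i j) ↔ ρ (v i) < ρ (v j) := by
  simp only [lt, sat_and, sat_neg, sat_le' hρ h0]
  omega

theorem sat_memS (hρ : Ranked R x K ρ) (h0 : v 0 = x) (i X : ℕ) (hi : i ≠ 7) :
    Sat (rel R) v V (memS i X) ↔ ρ (v i) ∈ ρ '' V X := by
  simp only [memS, sat_ex, sat_and, sat_mm]
  constructor
  · rintro ⟨y, h1, h2, h3⟩
    rw [sat_le' hρ (by simpa using h0)] at h2 h3
    simp only [Function.update_self, Function.update_of_ne hi] at h1 h2 h3
    exact ⟨y, h1, by omega⟩
  · rintro ⟨y, h1, h2⟩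
    refine ⟨y, ?_, ?_, ?_⟩
    · simpa using h1
    · rw [sat_le' hρ (by simpa using h0)]
      simp only [Function.update_self, Function.update_of_ne hi]
      omega
    · rw [sat_le' hρ (by simpa using h0)]
      simp only [Function.update_self, Function.update_of_ne hi]
      omega

/-- `φ` measures the distance `t` between the classes of `x_1` and `x_2`. -/
def Meas (R : α → α → Prop) (x : α) (ρ : α → ℕ) (φ : F) (t : ℕ) : Prop :=
  ∀ (v : ℕ → α) (V : ℕ → Set α), v 0 = x → (Sat (rel R) v V φ ↔ ρ (v 2) = ρ (v 1) + t)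

variable {φ : F} {t : ℕ}

theorem sat_ap (hφ : Meas R x ρ φ t) (h0 : v 0 = x) (i j : ℕ) (hi : i ≠ 13) (hj : j ≠ 13)
    (hj' : j ≠ 14) : Sat (rel R) v V (ap φ i j) ↔ ρ (v j) = ρ (v i) + t := by
  simp only [ap, sat_ex, sat_and, sat_eqv]
  constructor
  · rintro ⟨a, h1, b, h2, c, h3, d, h4, h5⟩
    rw [hφ _ _ (by simpa using h0)] at h5
    simp [Function.update_of_ne, hi, hj, hj'] at h1 h2 h3 h4 h5
    subst h1 h2 h3 h4
    exact h5
  · intro h
    refine ⟨v i, ?_, v j, ?_, v i, ?_, v j, ?_, ?_⟩
    · simp [hi]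
    · simp [hj, hj']
    · simp
    · simp
    · rw [hφ _ _ (by simpa using h0)]
      simpa using h

theorem sat_reach (hρ : Ranked R x K ρ) (hφ : Meas R x ρ φ t) (h0 : v 0 = x) (i j : ℕ)
    (hi : i ≠ 7) (hj : j ≠ 7) :
    Sat (rel R) v V (reach φ i j) ↔ ∃ q, ρ (v j) = ρ (v i) + t * q := by
  simp only [reach, sat_allS, sat_imp, sat_and, sat_all]
  constructor
  · intro h
    have h1 := h {y | ∃ q, ρ y = ρ (v i) + t * q}
    rw [sat_memS hρ h0 _ _ hi, sat_memS hρ h0 _ _ hj, Function.update_self] at h1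
    have h2 := h1 ⟨⟨v i, ⟨0, by simp⟩, rfl⟩, ?_⟩
    · obtain ⟨y, ⟨q, hq⟩, hy⟩ := h2
      exact ⟨q, by omega⟩
    · intro a b
      rw [sat_memS hρ (by simpa using h0) _ _ (by decide),
        sat_memS hρ (by simpa using h0) _ _ (by decide),
        sat_ap hφ (by simpa using h0) _ _ (by decide) (by decide) (by decide)]
      simp only [Function.update_self, Function.update_of_ne, ne_eq, Nat.reduceEqDiff,
        not_false_eq_true]
      rintro ⟨⟨y, ⟨q, hq⟩, hy⟩, h3⟩
      refine ⟨b, ⟨q + 1, ?_⟩, rfl⟩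
      rw [mul_add, mul_one]
      omega
  · rintro ⟨q, hq⟩ O
    rw [sat_memS hρ h0 _ _ hi, sat_memS hρ h0 _ _ hj]
    simp only [Function.update_self]
    rintro ⟨h1, h2⟩
    have key : ∀ q', ρ (v i) + t * q' < K → ρ (v i) + t * q' ∈ ρ '' O := by
      intro q'
      induction q' with
      | zero => intro _; simpa using h1
      | succ q' ih =>
        intro hlt
        rw [mul_add, mul_one] at hlt
        obtain ⟨a, ha⟩ := hρ.ex (i := ρ (v i) + t * q') (by omega)
        obtain ⟨b, hb⟩ := hρ.ex hlt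
        have h3 := h2 a b
        rw [sat_memS hρ (by simpa using h0) _ _ (by decide),
          sat_memS hρ (by simpa using h0) _ _ (by decide),
          sat_ap hφ (by simpa using h0) _ _ (by decide) (by decide) (by decide)] at h3
        simp only [Function.update_self, Function.update_of_ne, ne_eq, Nat.reduceEqDiff,
          not_false_eq_true] at h3
        have h4 := h3 ⟨by rw [ha]; exact ih (by omega), by omega⟩
        rw [hb] at h4
        rwa [mul_add, mul_one]
    rw [hq]
    exact key q (by rw [← hq]; exact hρ.lt_K _)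

theorem sat_inBlk (hρ : Ranked R x K ρ) (hφ : Meas R x ρ φ t) (h0 : v 0 = x) (i j : ℕ)
    (hi : i ≠ 6) (hj : j ≠ 6) (hi' : i ≠ 13) :
    Sat (rel R) v V (inBlk φ i j) ↔ ρ (v i) ≤ ρ (v j) ∧ ρ (v j) < ρ (v i) + t := by
  simp only [inBlk, sat_and, sat_neg, sat_ex]
  rw [sat_le' hρ h0]
  refine and_congr_right fun h1 => ?_
  constructor
  · intro h
    by_contra h2
    push Not at h2
    obtain ⟨c, hc⟩ := hρ.ex (i := ρ (v i) + t) (lt_of_le_of_lt h2 (hρ.lt_K _))
    refine h ⟨c, ?_, ?_⟩
    · rw [sat_ap hφ (by simpa using h0) _ _ hi' (by decide) (by decide)]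
      simpa [Function.update_of_ne hi] using hc
    · rw [sat_le' hρ (by simpa using h0)]
      simp only [Function.update_self, Function.update_of_ne hj]
      omega
  · rintro h ⟨c, h2, h3⟩
    rw [sat_ap hφ (by simpa using h0) _ _ hi' (by decide) (by decide)] at h2
    rw [sat_le' hρ (by simpa using h0)] at h3
    simp only [Function.update_self, Function.update_of_ne hj, Function.update_of_ne hi] at h2 h3
    omega

/-- Blocks of length `t` with all patterns from `a` to `b`: the arithmetical content. -/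
theorem patterns_iff (ht : 0 < t) (a b : ℕ) :
    (∃ X : Set ℕ, ∀ Y : Set ℕ, ∃ q, a + t * q + t ≤ b ∧
      ∀ r < t, (a + t * q + r ∈ X ↔ a + r ∈ Y)) ↔ a + t * 2 ^ t ≤ b := by
  constructor
  · rintro ⟨X, h⟩
    choose q hq1 hq2 using fun s : Fin t → Prop =>
      h {i | ∃ r : Fin t, i = a + r ∧ s r}
    have hinj : Function.Injective q := by
      intro s s' hs
      funext r
      have e1 := hq2 s r r.2
      have e2 := hq2 s' r r.2
      rw [hs] at e1
      have e3 := e1.symm.trans e2
      simp only [Set.mem_ofPred_eq, add_right_inj] at e3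
      have e4 : ∀ s : Fin t → Prop, (∃ r' : Fin t, (r : ℕ) = r' ∧ s r') ↔ s r := by
        intro s
        constructor
        · rintro ⟨r', h1, h2⟩
          rwa [Fin.ext h1]
        · intro h; exact ⟨r, rfl, h⟩
      rw [e4, e4] at e3
      exact propext e3
    have hlt : ∀ s, q s < (b - a) / t := by
      intro s
      rw [Nat.lt_iff_add_one_le, Nat.le_div_iff_mul_le ht]
      have := hq1 s
      rw [add_mul, one_mul, mul_comm]
      omega
    have hcard : Nat.card (Fin t → Prop) ≤ (b - a) / t := by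
      have := Nat.card_le_card_of_injective (fun s => (⟨q s, hlt s⟩ : Fin ((b - a) / t)))
        (fun s s' h => hinj (by simpa using h))
      simpa using this
    have hcard2 : Nat.card (Fin t → Prop) = 2 ^ t := by
      simp [Nat.card_eq_fintype_card]
    rw [hcard2, Nat.le_div_iff_mul_le ht, mul_comm] at hcard
    have h0 := hq1 (fun _ => True)
    omega
  · intro h
    have e : (Fin t → Prop) ≃ Fin (2 ^ t) := Fintype.equivFinOfCardEq (by simp)
    refine ⟨{i | a ≤ i ∧ ∃ h1 : (i - a) / t < 2 ^ t, e.symm ⟨(i - a) / t, h1⟩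
      ⟨(i - a) % t, Nat.mod_lt _ ht⟩}, ?_⟩
    intro Y
    refine ⟨e fun r => a + r ∈ Y, ?_, ?_⟩
    · have h1 := (e fun r => a + r ∈ Y).2
      have h2 : t * ((e fun r => a + r ∈ Y : Fin (2 ^ t)) + 1) ≤ t * 2 ^ t :=
        Nat.mul_le_mul_left t h1
      rw [mul_add, mul_one] at h2
      omega
    · intro r hr
      have h1 : a + t * (e fun r => a + r ∈ Y : Fin (2 ^ t)) + r - a =
          t * (e fun r => a + r ∈ Y : Fin (2 ^ t)) + r := by omega
      have h2 : (t * ((e fun r => a + r ∈ Y : Fin (2 ^ t)) : ℕ) + r) / t =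
          (e fun r => a + r ∈ Y : Fin (2 ^ t)) := by
        rw [Nat.mul_add_div ht, Nat.div_eq_of_lt hr, add_zero]
      have h3 : (t * ((e fun r => a + r ∈ Y : Fin (2 ^ t)) : ℕ) + r) % t = r := by
        rw [Nat.mul_add_mod, Nat.mod_eq_of_lt hr]
      simp only [Set.mem_ofPred_eq, h1, h2, h3, Fin.is_lt, Fin.eta, Equiv.symm_apply_apply,
        exists_true_left]
      constructor
      · exact fun h => h.2
      · exact fun h => ⟨by omega, h⟩

theorem sat_allPat (hρ : Ranked R x K ρ) (hφ : Meas R x ρ φ t) (ht : 0 < t) (h0 : v 0 = x)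
    (i j : ℕ) (hi : i ∉ [3, 4, 5, 6, 7, 13]) (hj : j ∉ [3, 4, 5, 6, 7]) :
    Sat (rel R) v V (allPat φ i j) ↔ ρ (v i) + t * 2 ^ t ≤ ρ (v j) := by
  simp only [List.mem_cons, List.not_mem_nil, or_false, not_or] at hi hj
  obtain ⟨i3, i4, i5, i6, i7, i13⟩ := hi
  obtain ⟨j3, j4, j5, j6, j7⟩ := hj
  rw [← patterns_iff ht]
  simp only [allPat, sat_exS, sat_allS, sat_ex, sat_and, sat_all, sat_imp, sat_iff]
  have e1 : ∀ (X Y : Set α) (y : α), (Sat (rel R) (Function.update v 3 y)
      (Function.update (Function.update V 0 X) 1 Y) (reach φ i 3) ∧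
      (∃ z, Sat (rel R) (Function.update (Function.update v 3 y) 4 z)
        (Function.update (Function.update V 0 X) 1 Y) (ap φ 3 4) ∧
        Sat (rel R) (Function.update (Function.update v 3 y) 4 z)
        (Function.update (Function.update V 0 X) 1 Y) (le 4 j)) ∧
      ∀ c c', Sat (rel R) (Function.update (Function.update (Function.update v 3 y) 4 c) 5 c')
        (Function.update (Function.update V 0 X) 1 Y) (inBlk φ 3 4) ∧
        Sat (rel R) (Function.update (Function.update (Function.update v 3 y) 4 c) 5 c')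
        (Function.update (Function.update V 0 X) 1 Y) (inBlk φ i 5) ∧
        Sat (rel R) (Function.update (Function.update (Function.update v 3 y) 4 c) 5 c')
        (Function.update (Function.update V 0 X) 1 Y) (reach φ 5 4) →
        (Sat (rel R) (Function.update (Function.update (Function.update v 3 y) 4 c) 5 c')
        (Function.update (Function.update V 0 X) 1 Y) (memS 4 0) ↔
        Sat (rel R) (Function.update (Function.update (Function.update v 3 y) 4 c) 5 c')
        (Function.update (Function.update V 0 X) 1 Y) (memS 5 1))) ↔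
      ∃ q, ρ y = ρ (v i) + t * q ∧ ρ (v i) + t * q + t ≤ ρ (v j) ∧
        ∀ r < t, (ρ (v i) + t * q + r ∈ ρ '' X ↔ ρ (v i) + r ∈ ρ '' Y) := by
    intro X Y y
    rw [sat_reach hρ hφ (by simpa using h0) _ _ i7 (by decide)]
    simp only [Function.update_self, Function.update_of_ne i3]
    constructor
    · rintro ⟨⟨q, hq⟩, ⟨z, hz1, hz2⟩, h⟩
      rw [sat_ap hφ (by simpa using h0) _ _ (by decide) (by decide) (by decide)] at hz1
      rw [sat_le' hρ (by simpa using h0)] at hz2
      simp [Function.update_of_ne, j3, j4] at hz1 hz2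
      refine ⟨q, hq, by omega, ?_⟩
      intro r hr
      obtain ⟨c, hc⟩ := hρ.ex (i := ρ (v i) + t * q + r) (by have := hρ.lt_K z; omega)
      obtain ⟨c', hc'⟩ := hρ.ex (i := ρ (v i) + r) (by have := hρ.lt_K z; omega)
      have h1 := h c c'
      rw [sat_inBlk hρ hφ (by simpa using h0) _ _ (by decide) (by decide) (by decide),
        sat_inBlk hρ hφ (by simpa using h0) _ _ i6 (by decide) i13,
        sat_reach hρ hφ (by simpa using h0) _ _ (by decide) (by decide),
        sat_memS hρ (by simpa using h0) _ _ (by decide),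
        sat_memS hρ (by simpa using h0) _ _ (by decide)] at h1
      simp [Function.update_of_ne, i3, i4, i5] at h1
      have h2 := h1 (by omega) (by omega) (by omega) (by omega) q (by omega)
      simp only [Set.mem_image]
      rw [hc, hc'] at h2
      exact h2
    · rintro ⟨q, hq, h1, h2⟩
      refine ⟨⟨q, hq⟩, ?_, ?_⟩
      · obtain ⟨z, hz⟩ := hρ.ex (i := ρ y + t) (by have := hρ.lt_K (v j); omega)
        refine ⟨z, ?_, ?_⟩
        · rw [sat_ap hφ (by simpa using h0) _ _ (by decide) (by decide) (by decide)]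
          simpa using hz
        · rw [sat_le' hρ (by simpa using h0)]
          simp [Function.update_of_ne, j3, j4]
          omega
      · intro c c'
        rw [sat_inBlk hρ hφ (by simpa using h0) _ _ (by decide) (by decide) (by decide),
          sat_inBlk hρ hφ (by simpa using h0) _ _ i6 (by decide) i13,
          sat_reach hρ hφ (by simpa using h0) _ _ (by decide) (by decide),
          sat_memS hρ (by simpa using h0) _ _ (by decide),
          sat_memS hρ (by simpa using h0) _ _ (by decide)]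
        simp [Function.update_of_ne, i3, i4, i5]
        intro g1 g2 g3 g4 q' g5
        have g6 : q' = q := by
          rcases lt_trichotomy q' q with h | h | h
          · have : t * q' + t ≤ t * q := by
              rw [← Nat.mul_succ]; exact Nat.mul_le_mul_left t h
            omega
          · exact h
          · have : t * q + t ≤ t * q' := by
              rw [← Nat.mul_succ]; exact Nat.mul_le_mul_left t h
            omega
        subst g6
        have g7 := h2 (ρ c' - ρ (v i)) (by omega)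
        have g8 : ρ (v i) + t * q' + (ρ c' - ρ (v i)) = ρ c := by omega
        have g9 : ρ (v i) + (ρ c' - ρ (v i)) = ρ c' := by omega
        rw [g8, g9] at g7
        simpa only [Set.mem_image] using g7
  constructor
  · rintro ⟨X, hX⟩
    refine ⟨ρ '' X, fun Y => ?_⟩
    obtain ⟨y, hy⟩ := hX (ρ ⁻¹' Y)
    rw [e1] at hy
    obtain ⟨q, h1, h2, h3⟩ := hy
    refine ⟨q, h2, fun r hr => ?_⟩
    rw [h3 r hr]
    constructor
    · rintro ⟨z, hz1, hz2⟩
      rw [← hz2]; exact hz1
    · intro h
      obtain ⟨z, hz⟩ := hρ.ex (i := ρ (v i) + r) (by have := hρ.lt_K (v j); omega)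
      exact ⟨z, by rw [Set.mem_preimage, hz]; exact h, hz⟩
  · rintro ⟨X, hX⟩
    refine ⟨ρ ⁻¹' X, fun Y => ?_⟩
    obtain ⟨q, h2, h3⟩ := hX (ρ '' Y)
    obtain ⟨y, hy⟩ := hρ.ex (i := ρ (v i) + t * q) (by have := hρ.lt_K (v j); omega)
    refine ⟨y, ?_⟩
    rw [e1]
    refine ⟨q, hy, h2, fun r hr => ?_⟩
    rw [← h3 r hr]
    constructor
    · rintro ⟨z, hz1, hz2⟩
      rw [← hz2]; exact hz1
    · intro h
      obtain ⟨z, hz⟩ := hρ.ex (i := ρ (v i) + t * q + r) (by have := hρ.lt_K (v j); omega)
      exact ⟨z, by rw [Set.mem_preimage, hz]; exact h, hz⟩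

theorem meas_D (hρ : Ranked R x K ρ) (k : ℕ) : Meas R x ρ (D k) (tt k) := by
  induction k with
  | zero =>
    intro v V h0
    simp only [D, sat_and, sat_all, sat_imp, tt]
    rw [sat_lt hρ h0]
    constructor
    · rintro ⟨h1, h2⟩
      obtain ⟨y, hy⟩ := hρ.ex (i := ρ (v 1) + 1) (by have := hρ.lt_K (v 2); omega)
      have h3 := h2 y
      rw [sat_lt hρ (by simpa using h0), sat_le' hρ (by simpa using h0)] at h3
      simp [Function.update_of_ne] at h3
      omega
    · intro h
      refine ⟨by omega, fun y => ?_⟩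
      rw [sat_lt hρ (by simpa using h0), sat_le' hρ (by simpa using h0)]
      simp [Function.update_of_ne]
      omega
  | succ k ih =>
    intro v V h0
    simp only [D, sat_and, sat_all, sat_imp, tt]
    rw [sat_allPat hρ ih (tt_pos k) h0 _ _ (by decide) (by decide)]
    constructor
    · rintro ⟨h1, h2⟩
      obtain ⟨y, hy⟩ := hρ.ex (i := ρ (v 1) + tt k * 2 ^ tt k)
        (lt_of_le_of_lt h1 (hρ.lt_K (v 2)))
      have h3 := h2 y
      rw [sat_allPat hρ ih (tt_pos k) (by simpa using h0) _ _ (by decide) (by decide),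
        sat_le' hρ (by simpa using h0)] at h3
      simp [Function.update_of_ne] at h3
      omega
    · intro h
      refine ⟨by omega, fun y => ?_⟩
      rw [sat_allPat hρ ih (tt_pos k) (by simpa using h0) _ _ (by decide) (by decide),
        sat_le' hρ (by simpa using h0)]
      simp [Function.update_of_ne]
      omega

end ranked

end Pool.Agent.Q227.CM
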