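import Pool.Agent.Q227.CM.Chain

/-!
# Relations on `ℤ / 2 ^ h` invariant under translations, and their modules
-/

set_option autoImplicit false

namespace Pool.Agent.Q227.CM

/-- The translation invariant relation of a set `C`. -/
def RC {N : ℕ} (C : ZMod N → Prop) (x y : ZMod N) : Prop := C (y - x)

theorem isModule_translate {N : ℕ} {C : ZMod N → Prop} {A : Set (ZMod N)}
    (hA : IsModule (RC C) A) (a : ZMod N) : IsModule (RC C) {x | x + a ∈ A} := by
  intro u hu w hw z hz
  have := hA (u + a) hu (w + a) hw (z + a) hz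
  unfold RC at this ⊢
  rwa [add_sub_add_right_eq_sub, add_sub_add_right_eq_sub] at this

theorem le_translate {N : ℕ} {C : ZMod N → Prop} (x y z : ZMod N) :
    Le (RC C) x y z ↔ Le (RC C) 0 (y - x) (z - x) := by
  constructor
  · intro h A hA h0 hz
    have h1 := h _ (isModule_translate hA (-x)) (by simpa using h0) (by
      simpa [sub_eq_add_neg] using hz)
    simpa [sub_eq_add_neg] using h1
  · intro h A hA h0 hz
    have h1 := h _ (isModule_translate hA x) (by simpa using h0) (by simpa using hz)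
    simpa using h1

/-- Nested modules containing `0` are closed under subtraction. -/
theorem sub_mem_of_module {N : ℕ} [NeZero N] {C : ZMod N → Prop}
    (htot : ∀ y z, Le (RC C) 0 y z ∨ Le (RC C) 0 z y) {A : Set (ZMod N)}
    (hA : IsModule (RC C) A) (h0 : (0 : ZMod N) ∈ A) {x a : ZMod N} (hx : x ∈ A) (ha : a ∈ A) :
    x - a ∈ A := by
  set B : Set (ZMod N) := {x | x + a ∈ A} with hB
  have hBm : IsModule (RC C) B := isModule_translate hA a
  have hB0 : (0 : ZMod N) ∈ B := by simpa [hB] using ha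
  have hcard : B.ncard = A.ncard := by
    have : B = (fun x => x + a) ⁻¹' A := rfl
    rw [this]
    exact Set.ncard_preimage_of_injective_subset_range (add_left_injective a)
      (by intro y _; exact ⟨y - a, by simp⟩)
  have hnest : B ⊆ A ∨ A ⊆ B := by
    by_contra hne
    push Not at hne
    obtain ⟨h1, h2⟩ := hne
    obtain ⟨y, hy1, hy2⟩ := Set.not_subset.1 h1
    obtain ⟨z, hz1, hz2⟩ := Set.not_subset.1 h2
    rcases htot y z with h | h
    · exact hy2 (h A hA h0 hz1)
    · exact hz2 (h B hBm hB0 hy1)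
  have hAB : B = A := by
    rcases hnest with h | h
    · exact Set.eq_of_subset_of_ncard_le h hcard.ge (Set.toFinite _)
    · exact (Set.eq_of_subset_of_ncard_le h hcard.le (Set.toFinite _)).symm
  have : x - a ∈ B := by simpa [hB] using hx
  rwa [hAB] at this

section balls

variable {h : ℕ}

/-- The multiples of `2 ^ i`. -/
def ball (h i : ℕ) : Set (ZMod (2 ^ h)) := {x | (2 : ZMod (2 ^ h)) ^ i ∣ x}

theorem ball_anti {i j : ℕ} (hij : i ≤ j) : ball h j ⊆ ball h i := fun _ hx =>
  (pow_dvd_pow _ hij).trans hx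

theorem zero_mem_ball (i : ℕ) : (0 : ZMod (2 ^ h)) ∈ ball h i := dvd_zero _

theorem pow_mem_ball (i : ℕ) : (2 : ZMod (2 ^ h)) ^ i ∈ ball h i := dvd_refl _

theorem add_mem_ball {i : ℕ} {x y : ZMod (2 ^ h)} (hx : x ∈ ball h i) (hy : y ∈ ball h i) :
    x + y ∈ ball h i := dvd_add hx hy

theorem sub_mem_ball {i : ℕ} {x y : ZMod (2 ^ h)} (hx : x ∈ ball h i) (hy : y ∈ ball h i) :
    x - y ∈ ball h i := dvd_sub hx hy

theorem two_pow_eq_zero : (2 : ZMod (2 ^ h)) ^ h = 0 := by
  have := ZMod.natCast_self (2 ^ h)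
  push_cast at this
  exact this

theorem mem_ball_top {x : ZMod (2 ^ h)} : x ∈ ball h h ↔ x = 0 := by
  unfold ball
  rw [Set.mem_ofPred_eq, two_pow_eq_zero, zero_dvd_iff]

theorem mem_ball_zero (x : ZMod (2 ^ h)) : x ∈ ball h 0 := by
  unfold ball
  simp

theorem parity (y : ZMod (2 ^ h)) : (∃ z, y = 2 * z) ∨ ∃ z, y = 2 * z + 1 := by
  rcases Nat.even_or_odd' y.val with ⟨c, hc | hc⟩
  · left
    refine ⟨(c : ZMod (2 ^ h)), ?_⟩
    rw [← ZMod.natCast_zmod_val y, hc]
    push_cast
    rfl
  · right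
    refine ⟨(c : ZMod (2 ^ h)), ?_⟩
    rw [← ZMod.natCast_zmod_val y, hc]
    push_cast
    rfl

theorem sub_pow_mem {i : ℕ} {x : ZMod (2 ^ h)} (h1 : x ∈ ball h i) (h2 : x ∉ ball h (i + 1)) :
    x - 2 ^ i ∈ ball h (i + 1) := by
  obtain ⟨y, rfl⟩ := h1
  rcases parity y with ⟨z, rfl⟩ | ⟨z, rfl⟩
  · exact absurd ⟨z, by rw [pow_succ]; ring⟩ h2
  · exact ⟨z, by rw [pow_succ]; ring⟩

theorem pow_not_mem {i : ℕ} (hi : i < h) : (2 : ZMod (2 ^ h)) ^ i ∉ ball h (i + 1) := by
  rintro ⟨y, hy⟩
  have h1 : (((2 ^ i : ℕ) : ℤ) : ZMod (2 ^ h)) = ((2 ^ (i + 1) * y.val : ℤ) : ZMod (2 ^ h)) := by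
    push_cast
    rw [ZMod.natCast_zmod_val y]
    exact hy
  rw [ZMod.intCast_eq_intCast_iff_dvd_sub] at h1
  obtain ⟨k, rfl⟩ : ∃ k, h = i + 1 + k := ⟨h - (i + 1), by omega⟩
  obtain ⟨c, hc⟩ := h1
  push_cast at hc
  have h3 : (2 : ℤ) ^ i * (2 * y.val - 1) = 2 ^ i * (2 * (2 ^ k * c)) := by
    have : (2 : ℤ) ^ (i + 1 + k) = 2 ^ i * (2 * 2 ^ k) := by ring
    rw [this] at hc
    have e : (2 : ℤ) ^ (i + 1) = 2 ^ i * 2 := by ring
    rw [e] at hc
    linear_combination hc
  have h4 := mul_left_cancel₀ (by positivity) h3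
  omega

/-- A nonempty set closed under subtraction is a ball. -/
theorem eq_ball {A : Set (ZMod (2 ^ h))} (h0 : (0 : ZMod (2 ^ h)) ∈ A)
    (hsub : ∀ x ∈ A, ∀ a ∈ A, x - a ∈ A) : ∃ i ≤ h, A = ball h i := by
  classical
  let H : AddSubgroup (ZMod (2 ^ h)) :=
    { carrier := A
      zero_mem' := h0
      add_mem' := by
        intro x y hx hy
        have := hsub x hx (0 - y) (hsub 0 h0 y hy)
        simpa using this
      neg_mem' := by
        intro x hx
        simpa using hsub 0 h0 x hx }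
  obtain ⟨g, hg⟩ := Int.subgroup_cyclic (H.comap (Int.castAddHom (ZMod (2 ^ h))))
  have hmem : ∀ z : ℤ, (z : ZMod (2 ^ h)) ∈ A ↔ g ∣ z := by
    intro z
    have h1 : (z : ZMod (2 ^ h)) ∈ A ↔ z ∈ H.comap (Int.castAddHom (ZMod (2 ^ h))) := Iff.rfl
    rw [h1, hg, AddSubgroup.mem_closure_singleton]
    constructor
    · rintro ⟨n, hn⟩
      exact ⟨n, by rw [← hn, smul_eq_mul, mul_comm]⟩
    · rintro ⟨n, hn⟩
      exact ⟨n, by rw [hn, smul_eq_mul, mul_comm]⟩
  have h2 : g ∣ ((2 ^ h : ℕ) : ℤ) := by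
    rw [← hmem]
    simpa [two_pow_eq_zero] using h0
  have h3 : g.natAbs ∣ 2 ^ h := by
    have := Int.natAbs_dvd_natAbs.2 h2
    simpa using this
  obtain ⟨i, hi, hgi⟩ := (Nat.dvd_prime_pow Nat.prime_two).1 h3
  refine ⟨i, hi, ?_⟩
  ext x
  have hx : ((x.val : ℤ) : ZMod (2 ^ h)) = x := by
    push_cast
    exact ZMod.natCast_zmod_val x
  constructor
  · intro hxA
    rw [← hx, hmem, ← Int.natAbs_dvd, hgi] at hxA
    obtain ⟨c, hc⟩ := hxA
    refine ⟨(c : ZMod (2 ^ h)), ?_⟩
    rw [← hx, hc]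
    push_cast
    rfl
  · rintro ⟨y, hy⟩
    have : x = ((2 ^ i * y.val : ℤ) : ZMod (2 ^ h)) := by
      rw [hy]
      push_cast
      rw [ZMod.natCast_zmod_val y]
    rw [this, hmem, ← Int.natAbs_dvd, hgi]
    push_cast
    exact dvd_mul_right _ _

/-- The level of an element. -/
noncomputable def lv (x : ZMod (2 ^ h)) : ℕ := by
  classical exact Nat.findGreatest (fun i => x ∈ ball h i) h

theorem lv_le (x : ZMod (2 ^ h)) : lv x ≤ h := by
  classical
  unfold lv
  exact Nat.findGreatest_le h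

theorem mem_ball_iff {x : ZMod (2 ^ h)} {i : ℕ} (hi : i ≤ h) : x ∈ ball h i ↔ i ≤ lv x := by
  classical
  constructor
  · intro hx
    unfold lv
    exact Nat.le_findGreatest hi hx
  · intro hx
    refine ball_anti hx ?_
    unfold lv
    exact Nat.findGreatest_spec (P := fun i => x ∈ ball h i) (Nat.zero_le h) (mem_ball_zero x)

theorem lv_pow {i : ℕ} (hi : i ≤ h) : lv ((2 : ZMod (2 ^ h)) ^ i) = i := by
  have h1 := (mem_ball_iff hi).1 (pow_mem_ball (h := h) i)
  rcases Nat.lt_or_ge i h with h2 | h2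
  · have h3 := (not_congr (mem_ball_iff (x := (2 : ZMod (2 ^ h)) ^ i) h2)).1 (pow_not_mem h2)
    omega
  · have := lv_le ((2 : ZMod (2 ^ h)) ^ i)
    omega

theorem lv_eq_top {x : ZMod (2 ^ h)} : lv x = h ↔ x = 0 := by
  rw [← mem_ball_top, mem_ball_iff le_rfl]
  have := lv_le x
  omega

theorem lv_sub_of_lt {x y : ZMod (2 ^ h)} (hxy : lv x < lv y) : lv (x - y) = lv x := by
  have hy := lv_le y
  have h1 : x - y ∈ ball h (lv x) :=
    sub_mem_ball ((mem_ball_iff (by omega)).2 le_rfl) ((mem_ball_iff (by omega)).2 hxy.le)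
  rw [mem_ball_iff (by omega)] at h1
  by_contra hne
  have h2 : x - y ∈ ball h (lv x + 1) := (mem_ball_iff (by omega)).2 (by omega)
  have h3 : x ∈ ball h (lv x + 1) := by
    have := add_mem_ball h2 ((mem_ball_iff (x := y) (i := lv x + 1) (by omega)).2 (by omega))
    simpa using this
  rw [mem_ball_iff (by omega)] at h3
  omega

theorem lv_neg (x : ZMod (2 ^ h)) : lv (-x) = lv x := by
  have h1 : ∀ y : ZMod (2 ^ h), lv y ≤ lv (-y) := by
    intro y
    rw [← mem_ball_iff (lv_le y)]
    have := (mem_ball_iff (x := y) (lv_le y)).2 le_rfl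
    exact (dvd_neg).2 this
  have h2 := h1 x
  have h3 := h1 (-x)
  rw [neg_neg] at h3
  omega

theorem lv_sub_of_gt {x y : ZMod (2 ^ h)} (hxy : lv y < lv x) : lv (x - y) = lv y := by
  rw [← neg_sub, lv_neg, lv_sub_of_lt hxy]

theorem lv_sub_of_eq {x y : ZMod (2 ^ h)} (hxy : lv x = lv y) (hlt : lv x < h) :
    lv x < lv (x - y) := by
  have hx : x ∉ ball h (lv x + 1) := by rw [mem_ball_iff (by omega)]; omega
  have hy : y ∉ ball h (lv x + 1) := by rw [mem_ball_iff (by omega)]; omega
  have h1 := sub_pow_mem ((mem_ball_iff (by omega)).2 le_rfl) hx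
  have h2 := sub_pow_mem ((mem_ball_iff (by omega)).2 (by omega)) hy
  have h3 := sub_mem_ball h1 h2
  rw [sub_sub_sub_cancel_right, mem_ball_iff (by omega)] at h3
  exact h3

/-! ## The balls are modules: `C` depends on the level only -/

theorem isModule_ball_iff {C : ZMod (2 ^ h) → Prop} {i : ℕ} :
    IsModule (RC C) (ball h i) ↔
      ∀ x, x ∉ ball h i → ∀ u ∈ ball h i, (C (x - u) ↔ C x) := by
  constructor
  · intro hm x hx u hu
    have := hm u hu 0 (zero_mem_ball i) x hx
    simpa [RC] using this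
  · intro hm u hu w hw x hx
    unfold RC
    rw [hm x hx u hu, hm x hx w hw]

/-- If all balls are modules then `C` depends on the level only. -/
theorem level_of_modules {C : ZMod (2 ^ h) → Prop} (hm : ∀ i ≤ h, IsModule (RC C) (ball h i))
    {x : ZMod (2 ^ h)} (hx : lv x < h) : C x ↔ C (2 ^ lv x) := by
  have h1 : x ∉ ball h (lv x + 1) := by rw [mem_ball_iff (by omega)]; omega
  have h2 := sub_pow_mem ((mem_ball_iff (by omega)).2 le_rfl) h1
  have h3 := isModule_ball_iff.1 (hm (lv x + 1) (by omega)) x h1 _ h2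
  rw [sub_sub_cancel] at h3
  exact h3.symm

/-- Conversely. -/
theorem modules_of_level {C : ZMod (2 ^ h) → Prop}
    (hC : ∀ x y : ZMod (2 ^ h), lv x < h → lv x = lv y → (C x ↔ C y)) {i : ℕ} (hi : i ≤ h) :
    IsModule (RC C) (ball h i) := by
  rw [isModule_ball_iff]
  intro x hx u hu
  rw [mem_ball_iff hi] at hx hu
  refine hC _ _ ?_ ?_ <;> rw [lv_sub_of_lt (by omega)]
  omega

/-! ## Uniqueness -/

/-- Consecutive levels have different colours. -/
theorem alternate {C : ZMod (2 ^ h) → Prop}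
    (htot : ∀ y z, Le (RC C) 0 y z ∨ Le (RC C) 0 z y)
    (hm : ∀ i ≤ h, IsModule (RC C) (ball h i)) {i : ℕ} (hi : i + 1 < h) :
    ¬ (C (2 ^ i) ↔ C (2 ^ (i + 1))) := by
  intro hC
  set A : Set (ZMod (2 ^ h)) := {x | x ∈ ball h (i + 2) ∨ x - 2 ^ i ∈ ball h (i + 2)} with hAdef
  have hAi : A ⊆ ball h i := by
    rintro x (hx | hx)
    · exact ball_anti (by omega) hx
    · have := add_mem_ball (ball_anti (by omega : i ≤ i + 2) hx) (pow_mem_ball i)
      simpa using this
  have hcoset : ∀ w u, w - u ∈ ball h (i + 2) → u ∈ A → w ∈ A := by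
    rintro w u hwu (hu | hu)
    · left
      have := add_mem_ball hwu hu
      simpa using this
    · right
      have := add_mem_ball hwu hu
      rwa [show w - u + (u - 2 ^ i) = w - 2 ^ i by ring] at this
  have hcol : ∀ x : ZMod (2 ^ h), i ≤ lv x → lv x < i + 2 → (C x ↔ C (2 ^ i)) := by
    intro x h1 h2
    rw [level_of_modules hm (by omega)]
    rcases Nat.lt_or_ge i (lv x) with h3 | h3
    · have : lv x = i + 1 := by omega
      rw [this]; exact hC.symm
    · have : lv x = i := by omega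
      rw [this]
  have hAm : IsModule (RC C) A := by
    intro u hu w hw z hz
    unfold RC
    by_cases hzi : z ∈ ball h i
    · have key : ∀ u ∈ A, (C (z - u) ↔ C (2 ^ i)) := by
        intro u hu
        refine hcol _ ?_ ?_
        · rw [← mem_ball_iff (by omega)]
          exact sub_mem_ball hzi (hAi hu)
        · by_contra hge
          push Not at hge
          exact hz (hcoset z u ((mem_ball_iff (by omega)).2 hge) hu)
      rw [key u hu, key w hw]
    · have := hm i (by omega) u (hAi hu) w (hAi hw) z hzi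
      exact this
  have hA0 : (0 : ZMod (2 ^ h)) ∈ A := Or.inl (zero_mem_ball _)
  have hA1 : (2 : ZMod (2 ^ h)) ^ i ∈ A := Or.inr (by simpa using zero_mem_ball _)
  have h1 := sub_mem_of_module htot hAm hA0 hA1 (sub_mem_of_module htot hAm hA0 hA0 hA1)
  rw [show (2 : ZMod (2 ^ h)) ^ i - (0 - 2 ^ i) = 2 ^ (i + 1) by ring] at h1
  rcases h1 with h1 | h1
  · exact pow_not_mem hi h1
  · rw [show (2 : ZMod (2 ^ h)) ^ (i + 1) - 2 ^ i = 2 ^ i by ring] at h1
    exact pow_not_mem (by omega : i < h) (ball_anti (by omega) h1)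

/-- If `0` has `h + 1` classes then all balls are modules. -/
theorem modules_of_ranked {C : ZMod (2 ^ h) → Prop}
    (htot : ∀ y z, Le (RC C) 0 y z ∨ Le (RC C) 0 z y) {ρ : ZMod (2 ^ h) → ℕ}
    (hρ : Ranked (RC C) 0 (h + 1) ρ) : ∀ i ≤ h, IsModule (RC C) (ball h i) := by
  have hmod : ∀ z, IsModule (RC C) {y | Le (RC C) 0 y z} := by
    intro z u hu w hw x hx
    simp only [Set.mem_ofPred_eq] at hx
    unfold Le at hx
    push Not at hx
    obtain ⟨A, hA, h0, hz, hxA⟩ := hx
    exact hA u (hu A hA h0 hz) w (hw A hA h0 hz) x hxA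
  have h1 : ∀ j : Fin (h + 1), ∃ i : Fin (h + 1), IsModule (RC C) (ball h i) ∧
      ∀ y, y ∈ ball h i ↔ ρ y ≤ j := by
    intro j
    obtain ⟨z, hz⟩ := hρ.ex j.2
    obtain ⟨i, hi, hA⟩ := eq_ball (A := {y | Le (RC C) 0 y z}) (fun A _ h0 _ => h0)
      (fun x hx a ha => sub_mem_of_module htot (hmod z) (fun A _ h0 _ => h0) hx ha)
    refine ⟨⟨i, by omega⟩, ?_, ?_⟩
    · have := hmod z
      rw [hA] at this
      exact this
    · intro y
      change y ∈ ball h i ↔ _
      rw [← hA, ← hz]
      exact hρ.le_iff y z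
  choose g hg1 hg2 using h1
  have hinj : Function.Injective g := by
    intro j j' hjj
    have : ∀ a b : Fin (h + 1), g a = g b → a ≤ b := by
      intro a b hab
      obtain ⟨y, hy⟩ := hρ.ex a.2
      have h2 := (hg2 a y).2 hy.le
      rw [hab, hg2 b y, hy] at h2
      exact h2
    exact le_antisymm (this _ _ hjj) (this _ _ hjj.symm)
  have hsurj := Finite.injective_iff_surjective.1 hinj
  intro i hi
  obtain ⟨j, hj⟩ := hsurj ⟨i, by omega⟩
  have := hg1 j
  rw [hj] at this
  exact this

/-- The colouring of the levels from below. -/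
def Calt (x : ZMod (2 ^ h)) : Prop := lv x < h ∧ Even (h - 1 - lv x)

/-- There are two adjacent elements which form a module. -/
def Twin {α : Type} (R : α → α → Prop) : Prop :=
  ∃ x y, x ≠ y ∧ R x y ∧ ∃ A : Set α, IsModule R A ∧ ∀ z, z ∈ A ↔ z = x ∨ z = y

theorem unique_colouring {C : ZMod (2 ^ h) → Prop} (hh : 0 < h)
    (hirr : ∀ x, ¬ RC C x x)
    (htot : ∀ y z, Le (RC C) 0 y z ∨ Le (RC C) 0 z y) (htwin : Twin (RC C))
    {ρ : ZMod (2 ^ h) → ℕ} (hρ : Ranked (RC C) 0 (h + 1) ρ) : ∀ x, C x ↔ Calt x := by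
  have hm := modules_of_ranked htot hρ
  have hlast : C (2 ^ (h - 1)) := by
    obtain ⟨x, y, hxy, hR, A, hA, hmem⟩ := htwin
    have hB := isModule_translate hA x
    have h0 : (0 : ZMod (2 ^ h)) ∈ {z | z + x ∈ A} := by
      rw [Set.mem_ofPred_eq, hmem]; left; simp
    have hd : y - x ∈ {z | z + x ∈ A} := by
      rw [Set.mem_ofPred_eq, hmem]; right; simp
    have h1 := sub_mem_of_module htot hB h0 h0 hd
    rw [Set.mem_ofPred_eq, hmem] at h1
    have hne : y - x ≠ 0 := sub_ne_zero.2 (Ne.symm hxy)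
    have h2 : (2 : ZMod (2 ^ h)) * (y - x) = 0 := by
      rcases h1 with h1 | h1
      · exfalso
        apply hne
        linear_combination -h1
      · linear_combination -h1
    have hlv : lv (y - x) < h := by
      have := lv_le (y - x)
      have h3 : lv (y - x) ≠ h := fun hc => hne (lv_eq_top.1 hc)
      omega
    have h4 : lv (y - x) = h - 1 := by
      by_contra hc
      have h5 : y - x ∉ ball h (lv (y - x) + 1) := by rw [mem_ball_iff (by omega)]; omega
      obtain ⟨w, hw⟩ := sub_pow_mem ((mem_ball_iff (by omega)).2 le_rfl) h5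
      apply pow_not_mem (h := h) (i := lv (y - x) + 1) (by omega)
      refine ⟨-w, ?_⟩
      have h6 : y - x = 2 ^ lv (y - x) + 2 ^ (lv (y - x) + 1) * w := by
        rw [← hw]; ring
      generalize lv (y - x) = l at *
      rw [h6] at h2
      linear_combination h2
    have h5 : C (y - x) := hR
    rw [level_of_modules hm hlv, h4] at h5
    exact h5
  have hstep : ∀ k, k < h → (C (2 ^ (h - 1 - k)) ↔ Even k) := by
    intro k
    induction k with
    | zero => intro _; simpa using hlast
    | succ k ih =>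
      intro hk
      have h1 := alternate htot hm (i := h - 1 - (k + 1)) (by omega)
      rw [show h - 1 - (k + 1) + 1 = h - 1 - k by omega, ih (by omega)] at h1
      rw [Nat.even_add_one]
      tauto
  intro x
  rcases Nat.lt_or_ge (lv x) h with hx | hx
  · rw [level_of_modules hm hx]
    have := hstep (h - 1 - lv x) (by omega)
    rw [show h - 1 - (h - 1 - lv x) = lv x by omega] at this
    rw [this]
    unfold Calt
    simp [hx]
  · have h1 : x = 0 := lv_eq_top.1 (le_antisymm (lv_le x) hx)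
    subst h1
    have h2 := hirr 0
    unfold RC at h2
    rw [sub_zero] at h2
    unfold Calt
    constructor
    · intro h; exact absurd h h2
    · intro h; omega

/-! ## Existence -/

theorem calt_level (x y : ZMod (2 ^ h)) (_ : lv x < h) (hxy : lv x = lv y) :
    (Calt x ↔ Calt y) := by
  unfold Calt
  rw [hxy]

theorem calt_modules {i : ℕ} (hi : i ≤ h) : IsModule (RC (Calt (h := h))) (ball h i) :=
  modules_of_level calt_level hi

theorem calt_alternate {x y : ZMod (2 ^ h)} (hx : lv x + 1 = lv y) (hy : lv y < h) :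
    ¬ (Calt x ↔ Calt y) := by
  unfold Calt
  obtain ⟨k, hk⟩ : ∃ k, h - 1 - lv y = k := ⟨_, rfl⟩
  have : h - 1 - lv x = k + 1 := by omega
  rw [hk, this, Nat.even_add_one]
  have h1 : lv x < h := by omega
  simp only [h1, hy, true_and]
  tauto

/-- The modules containing `0` are the balls. -/
theorem calt_ball {A : Set (ZMod (2 ^ h))} (hA : IsModule (RC (Calt (h := h))) A)
    (h0 : (0 : ZMod (2 ^ h)) ∈ A) : ∃ i ≤ h, A = ball h i := by
  classical
  have hex : ∃ i, ∃ y ∈ A, lv y = i := ⟨_, 0, h0, rfl⟩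
  obtain ⟨y, hyA, hy⟩ := Nat.find_spec hex
  have hmin : ∀ z ∈ A, lv y ≤ lv z := by
    intro z hz
    rw [hy]
    exact Nat.find_min' hex ⟨z, hz, rfl⟩
  refine ⟨lv y, lv_le y, ?_⟩
  apply Set.Subset.antisymm
  · intro z hz
    exact (mem_ball_iff (lv_le y)).2 (hmin z hz)
  · intro z hz
    by_contra hzA
    rw [mem_ball_iff (lv_le y)] at hz
    have hz0 : z ≠ 0 := fun h => hzA (h ▸ h0)
    have hzy : z ≠ y := fun h => hzA (h ▸ hyA)
    have hlz : lv z < h := lt_of_le_of_ne (lv_le z) fun hc => hz0 (lv_eq_top.1 hc)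
    have hlzy : lv (z - y) < h :=
      lt_of_le_of_ne (lv_le _) fun hc => sub_ne_zero.2 hzy (lv_eq_top.1 hc)
    -- membership of `A` against `z`
    have key : ∀ u ∈ A, ∀ w ∉ A, (Calt (w - u) ↔ Calt w) := by
      intro u hu w hw
      have := hA u hu 0 h0 w hw
      unfold RC at this
      rwa [sub_zero] at this
    have key2 : ∀ u ∈ A, ∀ w ∉ A, (Calt (w - u) ↔ Calt (w - y)) := by
      intro u hu w hw
      have := hA u hu y hyA w hw
      unfold RC at this
      exact this
    rcases Nat.lt_or_ge (lv y) (lv z) with h1 | h1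
    · -- `z` is near to `0`
      have h2 : lv (z - y) = lv y := lv_sub_of_gt h1
      have h3 : lv ((2 : ZMod (2 ^ h)) ^ (lv y + 1)) = lv y + 1 := lv_pow (by omega)
      by_cases h4 : lv z = lv y + 1
      · have := key y hyA z hzA
        exact calt_alternate (x := z - y) (y := z) (by omega) hlz this
      · by_cases hw : (2 : ZMod (2 ^ h)) ^ (lv y + 1) ∈ A
        · have h5 := key2 _ hw z hzA
          have h6 : lv (z - 2 ^ (lv y + 1)) = lv y + 1 := by
            rw [lv_sub_of_gt (by omega), h3]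
          exact calt_alternate (x := z - y) (y := z - 2 ^ (lv y + 1)) (by omega) (by omega)
            h5.symm
        · have h5 := key y hyA _ hw
          have h6 : lv ((2 : ZMod (2 ^ h)) ^ (lv y + 1) - y) = lv y := by
            rw [lv_sub_of_gt (by omega)]
          exact calt_alternate (x := 2 ^ (lv y + 1) - y) (y := 2 ^ (lv y + 1)) (by omega)
            (by omega) h5
    · -- `z` is near to `y`
      have hzy' : lv z = lv y := le_antisymm h1 hz
      have h2 : lv z < lv (z - y) := lv_sub_of_eq hzy' hlz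
      have h3 : lv ((2 : ZMod (2 ^ h)) ^ (lv y + 1)) = lv y + 1 := lv_pow (by omega)
      by_cases h4 : lv (z - y) = lv y + 1
      · have := key y hyA z hzA
        exact calt_alternate (x := z) (y := z - y) (by omega) hlzy this.symm
      · have h7 : lv (y + 2 ^ (lv y + 1)) = lv y := by
          have : lv (y - (-2 ^ (lv y + 1))) = lv y := by
            rw [lv_sub_of_lt]
            rw [lv_neg]
            omega
          rwa [sub_neg_eq_add] at this
        by_cases hw : y + (2 : ZMod (2 ^ h)) ^ (lv y + 1) ∈ A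
        · have h5 := key _ hw z hzA
          have h6 : lv (z - (y + 2 ^ (lv y + 1))) = lv y + 1 := by
            rw [← sub_sub, lv_sub_of_gt (by omega), h3]
          exact calt_alternate (x := z) (y := z - (y + 2 ^ (lv y + 1))) (by omega) (by omega)
            h5.symm
        · have h5 := key y hyA _ hw
          rw [add_sub_cancel_left] at h5
          exact calt_alternate (x := y + 2 ^ (lv y + 1)) (y := 2 ^ (lv y + 1)) (by omega)
            (by omega) h5.symm

theorem calt_le_zero (y z : ZMod (2 ^ h)) :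
    Le (RC (Calt (h := h))) 0 y z ↔ lv z ≤ lv y := by
  constructor
  · intro hle
    rw [← mem_ball_iff (lv_le z)]
    exact hle _ (calt_modules (lv_le z)) (zero_mem_ball _) ((mem_ball_iff (lv_le z)).2 le_rfl)
  · intro hle A hA h0 hz
    obtain ⟨i, hi, rfl⟩ := calt_ball hA h0
    rw [mem_ball_iff hi] at hz ⊢
    omega

theorem calt_le (x y z : ZMod (2 ^ h)) :
    Le (RC (Calt (h := h))) x y z ↔ lv (z - x) ≤ lv (y - x) := by
  rw [le_translate, calt_le_zero]

theorem calt_ranked (x : ZMod (2 ^ h)) :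
    Ranked (RC (Calt (h := h))) x (h + 1) (fun y => h - lv (y - x)) := by
  refine ⟨?_, ?_⟩
  · intro y z
    rw [calt_le]
    have := lv_le (z - x)
    have := lv_le (y - x)
    omega
  · intro i
    constructor
    · intro hi
      refine ⟨x + 2 ^ (h - i), ?_⟩
      simp only [add_sub_cancel_left]
      rw [lv_pow (by omega)]
      omega
    · rintro ⟨y, rfl⟩
      omega

theorem calt_twin (hh : 0 < h) : Twin (RC (Calt (h := h))) := by
  have h1 : (2 : ZMod (2 ^ h)) ^ (h - 1) ∉ ball h h := by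
    have := pow_not_mem (h := h) (i := h - 1) (by omega)
    rwa [show h - 1 + 1 = h by omega] at this
  refine ⟨0, 2 ^ (h - 1), ?_, ?_, ball h (h - 1), calt_modules (by omega), ?_⟩
  · intro hc
    rw [← hc] at h1
    exact h1 (zero_mem_ball _)
  · unfold RC Calt
    rw [sub_zero, lv_pow (by omega)]
    exact ⟨by omega, by simp⟩
  · intro z
    constructor
    · intro hz
      by_cases h2 : z ∈ ball h h
      · left; exact mem_ball_top.1 h2
      · right
        have := sub_pow_mem hz (by rwa [show h - 1 + 1 = h by omega])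
        rw [show h - 1 + 1 = h by omega, mem_ball_top] at this
        exact sub_eq_zero.1 this
    · rintro (rfl | rfl)
      · exact zero_mem_ball _
      · exact pow_mem_ball _

theorem calt_irr (x : ZMod (2 ^ h)) : ¬ RC (Calt (h := h)) x x := by
  unfold RC Calt
  rw [sub_self]
  have := (lv_eq_top (x := (0 : ZMod (2 ^ h)))).2 rfl
  omega

end balls

end Pool.Agent.Q227.CM
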