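import Mathlib

/-!
# Monadic second-order logic with modular counting, counting sequences, recurrences modulo `m`
-/

set_option autoImplicit false

namespace Pool.Agent.Q227.CM

/-- Terms over a vocabulary with `c` constant symbols: the element variables `x_0, x_1, ...` and the
constant symbols. -/
inductive Tm (c : ℕ) : Type
  | var : ℕ → Tm c
  | con : Fin c → Tm c

/-- Formulas of `CMSOL` over the vocabulary with `c` constant symbols, `u` unary and `b` binary
relation symbols, with element variables `x_i` and set variables `X_i` (`i = 0, 1, ...`):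
`eq s t` is `s = t`, `un k t` is `U_k(t)`, `bin k s t` is `R_k(s, t)`, `mem t i` is `t ∈ X_i`,
`ex i φ` is `∃ x_i φ`, `exS i φ` is `∃ X_i φ` and `cnt k q i φ` is `C_{k,q} x_i φ`: the number of
`x_i` with `φ` is congruent to `k` modulo `q`. -/
inductive Fm (c u b : ℕ) : Type
  | eq : Tm c → Tm c → Fm c u b
  | un : Fin u → Tm c → Fm c u b
  | bin : Fin b → Tm c → Tm c → Fm c u b
  | mem : Tm c → ℕ → Fm c u b
  | neg : Fm c u b → Fm c u b
  | and : Fm c u b → Fm c u b → Fm c u b
  | ex : ℕ → Fm c u b → Fm c u b
  | exS : ℕ → Fm c u b → Fm c u b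
  | cnt : ℕ → ℕ → ℕ → Fm c u b → Fm c u b

/-- Structures with the universe `α`: the values of the constant symbols, the unary relations and
the binary relations. -/
abbrev Str (c u b : ℕ) (α : Type) : Type :=
  (Fin c → α) × (Fin u → α → Prop) × (Fin b → α → α → Prop)

/-- The value of a term. -/
def Tm.val {c : ℕ} {α : Type} (s : Fin c → α) (v : ℕ → α) : Tm c → α
  | .var i => v i
  | .con k => s k

/-- Satisfaction of a formula in the structure `M`; `v i` is the value of `x_i` and `V i` the value
of `X_i`. -/
def Sat {c u b : ℕ} {α : Type} (M : Str c u b α) : (ℕ → α) → (ℕ → Set α) → Fm c u b → Prop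
  | v, _, .eq s t => s.val M.1 v = t.val M.1 v
  | v, _, .un k t => M.2.1 k (t.val M.1 v)
  | v, _, .bin k s t => M.2.2 k (s.val M.1 v) (t.val M.1 v)
  | v, V, .mem t i => t.val M.1 v ∈ V i
  | v, V, .neg φ => ¬ Sat M v V φ
  | v, V, .and φ ψ => Sat M v V φ ∧ Sat M v V ψ
  | v, V, .ex i φ => ∃ x, Sat M (Function.update v i x) V φ
  | v, V, .exS i φ => ∃ X, Sat M v (Function.update V i X) φ
  | v, V, .cnt k q i φ => Nat.card {x // Sat M (Function.update v i x) V φ} ≡ k [MOD q]

/-- The length of a term; the index of a variable or constant symbol is written in unary. -/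
def Tm.len {c : ℕ} : Tm c → ℕ
  | .var i => i + 1
  | .con k => k + 1

/-- The length of a formula; all indices and the numbers `k`, `q` of a modular counting quantifier
are written in unary. -/
def Fm.len {c u b : ℕ} : Fm c u b → ℕ
  | .eq s t => s.len + t.len + 1
  | .un k t => k + 1 + t.len
  | .bin k s t => k + 1 + s.len + t.len
  | .mem t i => t.len + 1 + (i + 1)
  | .neg φ => φ.len + 1
  | .and φ ψ => φ.len + ψ.len + 1
  | .ex i φ => 1 + (i + 1) + φ.len
  | .exS i φ => 1 + (i + 1) + φ.len
  | .cnt k q i φ => 1 + k + q + (i + 1) + φ.len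

/-- All element variables of the term belong to `E`. -/
def Tm.Within {c : ℕ} (E : List ℕ) : Tm c → Prop
  | .var i => i ∈ E
  | .con _ => True

/-- All free element variables of the formula belong to `E` and all its free set variables belong to
`S`. -/
def Fm.Within {c u b : ℕ} : List ℕ → List ℕ → Fm c u b → Prop
  | E, _, .eq s t => s.Within E ∧ t.Within E
  | E, _, .un _ t => t.Within E
  | E, _, .bin _ s t => s.Within E ∧ t.Within E
  | E, S, .mem t i => t.Within E ∧ i ∈ S
  | E, S, .neg φ => φ.Within E S
  | E, S, .and φ ψ => φ.Within E S ∧ ψ.Within E S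
  | E, S, .ex i φ => φ.Within (i :: E) S
  | E, S, .exS i φ => φ.Within E (i :: S)
  | E, S, .cnt _ _ i φ => φ.Within (i :: E) S

/-- A sentence: a formula without free variables. -/
def Fm.Sentence {c u b : ℕ} (φ : Fm c u b) : Prop := φ.Within [] []

/-- `M` is a model of `φ`. (For a sentence `φ` the values of the variables play no role.) -/
def Models {c u b : ℕ} {α : Type} (M : Str c u b α) (φ : Fm c u b) : Prop :=
  ∃ v V, Sat M v V φ

/-- The counting sequence: the number of structures with the universe `Fin n` in which `φ`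
holds. -/
noncomputable def count {c u b : ℕ} (φ : Fm c u b) (n : ℕ) : ℕ :=
  Nat.card {M : Str c u b (Fin n) // Models M φ}

/-- The sequence `s` satisfies a recurrence modulo `m` with the constants `r` and `p`: there are
integers `a 0, ..., a p` with `s (n + p + 1) ≡ a 0 * s n + ... + a p * s (n + p)` modulo `m` for all
`n ≥ r`. -/
def Recurrence (s : ℕ → ℕ) (m r p : ℕ) : Prop :=
  ∃ a : ℕ → ℤ, ∀ n, r ≤ n →
    (s (n + p + 1) : ℤ) ≡ ∑ i ∈ Finset.range (p + 1), a i * (s (n + i) : ℤ) [ZMOD m]

/-- The (Kalmár) elementary functions `ℕ ^ k → ℕ`: the least class of functions which contains the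
zero functions, the successor, the projections, addition and truncated subtraction and is closed
under composition, bounded sums and bounded products. -/
inductive Elem : (k : ℕ) → ((Fin k → ℕ) → ℕ) → Prop
  | zero (k : ℕ) : Elem k (fun _ => 0)
  | succ : Elem 1 (fun x => x 0 + 1)
  | proj {k : ℕ} (i : Fin k) : Elem k (fun x => x i)
  | add : Elem 2 (fun x => x 0 + x 1)
  | sub : Elem 2 (fun x => x 0 - x 1)
  | comp {k l : ℕ} (f : (Fin l → ℕ) → ℕ) (g : Fin l → (Fin k → ℕ) → ℕ) :
      Elem l f → (∀ i, Elem k (g i)) → Elem k (fun x => f fun i => g i x)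
  | bsum {k : ℕ} (f : (Fin (k + 1) → ℕ) → ℕ) : Elem (k + 1) f →
      Elem (k + 1) (fun x => ∑ i ∈ Finset.range (x 0), f (Fin.cons i (Fin.tail x)))
  | bprod {k : ℕ} (f : (Fin (k + 1) → ℕ) → ℕ) : Elem (k + 1) f →
      Elem (k + 1) (fun x => ∏ i ∈ Finset.range (x 0), f (Fin.cons i (Fin.tail x)))

/-- The iterated exponential `2 ^ (2 ^ ... (2 ^ x))` of height `h`. -/
def tower : ℕ → ℕ → ℕ
  | 0, x => x
  | h + 1, x => 2 ^ tower h x

/-! ## Invariance under isomorphisms -/

/-- The structure transported along a bijection of the universes. -/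
def mapStr {c u b : ℕ} {α β : Type} (e : α ≃ β) (M : Str c u b α) : Str c u b β :=
  (fun k => e (M.1 k), fun k y => M.2.1 k (e.symm y), fun k y z => M.2.2 k (e.symm y) (e.symm z))

theorem val_map {c : ℕ} {α β : Type} (e : α ≃ β) (s : Fin c → α) (v : ℕ → α) (t : Tm c) :
    t.val (fun k => e (s k)) (fun i => e (v i)) = e (t.val s v) := by
  cases t <;> rfl

theorem update_map {α β : Type} (e : α → β) (v : ℕ → α) (i : ℕ) (x : α) :
    Function.update (fun j => e (v j)) i (e x) = fun j => e (Function.update v i x j) := by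
  funext j
  by_cases h : j = i
  · subst h; simp
  · simp [Function.update_of_ne h]

theorem sat_map {c u b : ℕ} {α β : Type} (e : α ≃ β) (M : Str c u b α) (φ : Fm c u b) :
    ∀ (v : ℕ → α) (V : ℕ → Set α),
      Sat (mapStr e M) (fun i => e (v i)) (fun i => e '' V i) φ ↔ Sat M v V φ := by
  induction φ with
  | eq s t => intro v V; simp [Sat, mapStr, val_map]
  | un k t => intro v V; simp [Sat, mapStr, val_map]
  | bin k s t => intro v V; simp [Sat, mapStr, val_map]
  | mem t i => intro v V; simp [Sat, mapStr, val_map]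
  | neg φ ih => intro v V; simp [Sat, ih]
  | and φ ψ ih1 ih2 => intro v V; simp [Sat, ih1, ih2]
  | ex i φ ih =>
    intro v V
    simp only [Sat]
    constructor
    · rintro ⟨y, hy⟩
      refine ⟨e.symm y, (ih _ _).1 ?_⟩
      rw [← update_map e v i (e.symm y)]
      simpa using hy
    · rintro ⟨x, hx⟩
      refine ⟨e x, ?_⟩
      rw [update_map]
      exact (ih _ _).2 hx
  | exS i φ ih =>
    intro v V
    simp only [Sat]
    constructor
    · rintro ⟨Y, hY⟩
      refine ⟨e.symm '' Y, (ih _ _).1 ?_⟩
      rw [← update_map (fun Z : Set α => e '' Z) V i (e.symm '' Y)]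
      simpa using hY
    · rintro ⟨X, hX⟩
      refine ⟨e '' X, ?_⟩
      rw [update_map (fun Z : Set α => e '' Z) V i X]
      exact (ih _ _).2 hX
  | cnt k q i φ ih =>
    intro v V
    simp only [Sat]
    have : Nat.card {y // Sat (mapStr e M) (Function.update (fun i => e (v i)) i y)
        (fun i => e '' V i) φ} = Nat.card {x // Sat M (Function.update v i x) V φ} := by
      refine Nat.card_congr (e.symm.subtypeEquiv fun y => ?_)
      rw [← ih, ← update_map e v i (e.symm y)]
      simp
    rw [this]

theorem models_map {c u b : ℕ} {α β : Type} (e : α ≃ β) (M : Str c u b α) (φ : Fm c u b) :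
    Models (mapStr e M) φ ↔ Models M φ := by
  constructor
  · rintro ⟨v, V, h⟩
    refine ⟨fun i => e.symm (v i), fun i => e.symm '' V i, (sat_map e M φ _ _).1 ?_⟩
    simpa [Set.image_image] using h
  · rintro ⟨v, V, h⟩
    exact ⟨_, _, (sat_map e M φ v V).2 h⟩

theorem mapStr_symm {c u b : ℕ} {α β : Type} (e : α ≃ β) (M : Str c u b α) :
    mapStr e.symm (mapStr e M) = M := by
  obtain ⟨a, b, c⟩ := M
  simp [mapStr]

/-- The number of models does not depend on the names of the elements. -/
theorem count_eq {c u b : ℕ} (φ : Fm c u b) (n : ℕ) {β : Type} (e : Fin n ≃ β) :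
    count φ n = Nat.card {M : Str c u b β // Models M φ} := by
  unfold count
  refine Nat.card_congr (Equiv.subtypeEquiv
    ⟨mapStr e, mapStr e.symm, mapStr_symm e, mapStr_symm e.symm⟩ fun M => ?_)
  exact (models_map e M φ).symm

end Pool.Agent.Q227.CM
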