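import Pool.Agent.Q227.CM.Sent

/-!
# Lengths of the sentences, iterated exponentials, elementary functions
-/

set_option autoImplicit false

namespace Pool.Agent.Q227.CM

/-! ## The sentences are sentences -/

theorem within_D (k : ℕ) : ∀ E S : List ℕ, 0 ∈ E → 1 ∈ E → 2 ∈ E → (D k).Within E S := by
  induction k with
  | zero =>
    intro E S h0 h1 h2
    simp [D, lt, le, isMod, all, allS, imp, iff', adj, mm, Fm.Within, Tm.Within, h0, h1, h2]
  | succ k ih =>
    intro E S h0 h1 h2
    have hk : ∀ E' S' : List ℕ, 0 ∈ E' →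
        (D k).Within (2 :: 1 :: E') S' := fun E' S' h => ih _ _ (by simp [h]) (by simp) (by simp)
    simp [D, allPat, reach, inBlk, memS, ap, eqv, le, isMod, all, allS, imp, iff', adj, mm,
      Fm.Within, Tm.Within, h0, h1, h2, hk]

theorem sent_sentence (L : ℕ) : (sent L).Sentence := by
  have := within_D L [2, 1, 0] [] (by simp) (by simp) (by simp)
  simp [Fm.Sentence, sent, orr, eqv, le, isMod, all, allS, imp, iff', adj, mm,
      Fm.Within, Tm.Within, this]

/-! ## Lengths -/

theorem len_D_succ (k : ℕ) : (D (k + 1)).len ≤ 60 * (D k).len + 100000 := by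
  simp [D, allPat, reach, inBlk, memS, ap, eqv, le, isMod, all, allS, imp, iff', adj, mm,
      Fm.len, Tm.len]
  omega

theorem len_D (k : ℕ) : (D k).len + 100000 ≤ 2 ^ (17 + 7 * k) := by
  induction k with
  | zero =>
    simp [D, lt, le, isMod, all, allS, imp, iff', adj, mm, Fm.len, Tm.len]
  | succ k ih =>
    have h1 := len_D_succ k
    have h2 : 2 ^ (17 + 7 * (k + 1)) = 128 * 2 ^ (17 + 7 * k) := by
      rw [show 17 + 7 * (k + 1) = 7 + (17 + 7 * k) by ring, pow_add]
      norm_num
    omega

theorem len_sent (L : ℕ) : (sent L).len ≤ 2 ^ (17 + 7 * L) := by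
  have h := len_D L
  have : (sent L).len ≤ (D L).len + 100000 := by
    simp [sent, orr, eqv, le, isMod, all, allS, imp, iff', adj, mm, Fm.len, Tm.len]
    omega
  omega

/-! ## Growth -/

theorem tower_mono (h : ℕ) {x y : ℕ} (hxy : x ≤ y) : tower h x ≤ tower h y := by
  induction h with
  | zero => exact hxy
  | succ h ih => exact Nat.pow_le_pow_right (by norm_num) ih

theorem le_tower (h x : ℕ) : x ≤ tower h x := by
  induction h with
  | zero => exact le_rfl
  | succ h ih => exact ih.trans Nat.lt_two_pow_self.le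

theorem tower_le_succ (h x : ℕ) : tower h x ≤ tower (h + 1) x := Nat.lt_two_pow_self.le

theorem tower_le {h h' : ℕ} (hh : h ≤ h') (x : ℕ) : tower h x ≤ tower h' x := by
  induction hh with
  | refl => exact le_rfl
  | step _ ih => exact ih.trans (tower_le_succ _ _)

theorem tower_tower (a b x : ℕ) : tower a (tower b x) = tower (a + b) x := by
  induction a with
  | zero => simp [tower]
  | succ a ih => rw [Nat.succ_add]; simp only [tower, ih]

theorem tt_step (k : ℕ) : 2 ^ tt k ≤ tt (k + 1) := by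
  simp only [tt]
  exact Nat.le_mul_of_pos_left _ (tt_pos k)

theorem tower_tt (h k : ℕ) : tower h (tt k) ≤ tt (h + k) := by
  induction h with
  | zero => simp [tower]
  | succ h ih =>
    rw [show h + 1 + k = h + k + 1 by ring]
    exact (Nat.pow_le_pow_right (by norm_num) ih).trans (tt_step _)

theorem le_tt (k : ℕ) : k + 1 ≤ tt k := by
  induction k with
  | zero => simp [tt]
  | succ k ih =>
    have h1 := tt_step k
    have h2 : tt k < 2 ^ tt k := Nat.lt_two_pow_self
    omega

/-- The yardsticks are longer than any iterated exponential of fixed height of the length. -/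
theorem exists_long (h : ℕ) : ∃ L, 2 * tower h (2 ^ (17 + 7 * L)) + 2 ≤ tt L := by
  obtain ⟨k, hk⟩ : ∃ k, k = h + 60 := ⟨_, rfl⟩
  refine ⟨(h + 2) + (k + 2), ?_⟩
  refine le_trans ?_ (tower_tt (h + 2) (k + 2))
  have h1 : 2 ^ (17 + 7 * (h + 2 + (k + 2))) ≤ tt (k + 2) := by
    refine le_trans (Nat.pow_le_pow_right (by norm_num) ?_) (tt_step (k + 1))
    refine le_trans ?_ (tt_step k)
    refine le_trans ?_ (Nat.pow_le_pow_right (by norm_num) (le_tt k))
    have h2 : ∀ m : ℕ, 10 ≤ m → 17 + 7 * (m + 2 + (m + 2)) ≤ 2 ^ (m + 1) := by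
      intro m hm
      induction m, hm using Nat.le_induction with
      | base => norm_num
      | succ m hm ih =>
        rw [pow_succ]
        have : 14 ≤ 2 ^ (m + 1) := by
          calc 14 ≤ 2 ^ 4 := by norm_num
            _ ≤ 2 ^ (m + 1) := Nat.pow_le_pow_right (by norm_num) (by omega)
        omega
    refine le_trans ?_ (h2 k (by omega))
    omega
  have h3 := tower_mono h h1
  have h4 : ∀ x : ℕ, 1 ≤ x → 2 * x + 2 ≤ tower 2 x := by
    intro x hx
    simp only [tower]
    have h5 : x + 1 ≤ 2 ^ x := Nat.lt_two_pow_self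
    have h6 : 2 ^ (x + 1) ≤ 2 ^ 2 ^ x := Nat.pow_le_pow_right (by norm_num) h5
    have h7 : 2 * x + 2 ≤ 2 ^ (x + 1) := by
      rw [pow_succ]
      omega
    omega
  calc 2 * tower h (2 ^ (17 + 7 * (h + 2 + (k + 2)))) + 2 ≤ 2 * tower h (tt (k + 2)) + 2 := by
        omega
    _ ≤ tower 2 (tower h (tt (k + 2))) := h4 _ ((tt_pos _).trans_le (le_tower _ _))
    _ = tower (h + 2) (tt (k + 2)) := by rw [tower_tower, Nat.add_comm]

/-! ## No recurrence -/

theorem no_recurrence {L r p : ℕ} (hrp : r + p + 2 ≤ tt L) :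
    ¬ Recurrence (count (sent L)) 2 r p := by
  rintro ⟨a, ha⟩
  have key : ∀ n, r ≤ n → ((count (sent L) n : ℕ) : ℤ) ≡ 0 [ZMOD 2] := by
    intro n
    induction n using Nat.strong_induction_on with
    | _ n ih =>
      intro hn
      rcases Nat.lt_or_ge n (r + p + 1) with h1 | h1
      · rw [count_eq_zero (by omega)]
        rfl
      · have h2 := ha (n - (p + 1)) (by omega)
        rw [show n - (p + 1) + p + 1 = n by omega] at h2
        refine h2.trans ?_
        have h3 : ∀ i ∈ Finset.range (p + 1),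
            (2 : ℤ) ∣ a i * (count (sent L) (n - (p + 1) + i) : ℤ) := by
          intro i hi
          rw [Finset.mem_range] at hi
          have h4 := ih (n - (p + 1) + i) (by omega) (by omega)
          exact Dvd.dvd.mul_left (Int.modEq_zero_iff_dvd.1 h4) _
        exact Int.modEq_zero_iff_dvd.2 (Finset.dvd_sum h3)
  have h1 := key (2 ^ tt L) (by have := (Nat.lt_two_pow_self (n := tt L)); omega)
  have h2 := count_odd L
  rw [Int.modEq_zero_iff_dvd] at h1
  have h3 : 2 ∣ count (sent L) (2 ^ tt L) := by exact_mod_cast h1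
  unfold Nat.ModEq at h2
  omega

/-! ## Elementary functions -/

theorem sq_le_tower (x : ℕ) : x * x ≤ tower 2 x := by
  simp only [tower]
  have h1 : x ≤ 2 ^ x := Nat.lt_two_pow_self.le
  have h2 : 2 * x ≤ 2 ^ x := by
    rcases x with _ | x
    · norm_num
    · rw [pow_succ]
      have := (Nat.lt_two_pow_self (n := x))
      omega
  calc x * x ≤ 2 ^ x * 2 ^ x := Nat.mul_le_mul h1 h1
    _ = 2 ^ (2 * x) := by rw [← pow_add]; ring_nf
    _ ≤ 2 ^ 2 ^ x := Nat.pow_le_pow_right (by norm_num) h2

theorem add_le_tower (l x : ℕ) : l + x ≤ tower l x := by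
  induction l with
  | zero => simp [tower]
  | succ l ih =>
    have : l + x < 2 ^ (l + x) := Nat.lt_two_pow_self
    have h2 : 2 ^ (l + x) ≤ 2 ^ tower l x := Nat.pow_le_pow_right (by norm_num) ih
    simp only [tower]
    omega

/-- The bound for elementary functions. -/
def Bdd {k : ℕ} (f : (Fin k → ℕ) → ℕ) : Prop := ∃ h, ∀ x, f x ≤ tower h (∑ i, x i + 2)

theorem sum_cons_tail {k : ℕ} (x : Fin (k + 1) → ℕ) {i : ℕ} (hi : i < x 0) :
    ∑ j, (Fin.cons i (Fin.tail x) : Fin (k + 1) → ℕ) j ≤ ∑ j, x j := by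
  rw [Fin.sum_univ_succ, Fin.sum_univ_succ]
  simp only [Fin.cons_zero, Fin.cons_succ, Fin.tail]
  omega

theorem Elem.bdd {k : ℕ} {f : (Fin k → ℕ) → ℕ} (hf : Elem k f) : Bdd f := by
  induction hf with
  | zero k => exact ⟨0, fun x => Nat.zero_le _⟩
  | succ =>
    refine ⟨0, fun x => ?_⟩
    simp [tower]
  | proj i =>
    refine ⟨0, fun x => ?_⟩
    have := Finset.single_le_sum (fun j _ => Nat.zero_le (x j)) (Finset.mem_univ i)
    simp only [tower]
    omega
  | add =>
    refine ⟨0, fun x => ?_⟩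
    simp [tower, Fin.sum_univ_two]
  | sub =>
    refine ⟨0, fun x => ?_⟩
    simp [tower, Fin.sum_univ_two]
    omega
  | @comp k l f g _ _ ihf ihg =>
    obtain ⟨a, ha⟩ := ihf
    choose b hb using ihg
    refine ⟨a + (2 + (l + 2)) + ∑ i, b i, fun x => ?_⟩
    set T := tower (∑ i, b i) (∑ i, x i + 2) with hT
    have h1 : ∀ i, g i x ≤ T := fun i =>
      (hb i x).trans (tower_le (Finset.single_le_sum (fun j _ => Nat.zero_le (b j))
        (Finset.mem_univ i)) _)
    have hT2 : 2 ≤ T := le_trans (by omega) (le_tower _ _)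
    have h2 : ∑ i, g i x + 2 ≤ tower (2 + (l + 2)) T := by
      calc ∑ i, g i x + 2 ≤ ∑ _i : Fin l, T + 2 := by
            have := Finset.sum_le_sum (fun i (_ : i ∈ Finset.univ) => h1 i)
            omega
        _ = l * T + 2 := by simp
        _ ≤ (l + 2 + T) * (l + 2 + T) := by nlinarith
        _ ≤ tower (l + 2) T * tower (l + 2) T := by
            have := add_le_tower (l + 2) T
            exact Nat.mul_le_mul this this
        _ ≤ tower 2 (tower (l + 2) T) := sq_le_tower _
        _ = tower (2 + (l + 2)) T := tower_tower _ _ _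
    calc f (fun i => g i x) ≤ tower a (∑ i, g i x + 2) := ha _
      _ ≤ tower a (tower (2 + (l + 2)) T) := tower_mono _ h2
      _ = _ := by rw [hT, tower_tower, tower_tower]
  | @bsum k f _ ih =>
    obtain ⟨a, ha⟩ := ih
    refine ⟨2 + a, fun x => ?_⟩
    set T := tower a (∑ i, x i + 2) with hT
    have h1 : ∀ i ∈ Finset.range (x 0), f (Fin.cons i (Fin.tail x)) ≤ T := by
      intro i hi
      refine (ha _).trans (tower_mono _ ?_)
      have := sum_cons_tail x (Finset.mem_range.1 hi)
      omega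
    have hx : x 0 ≤ T := by
      refine le_trans ?_ (le_tower a _)
      have := Finset.single_le_sum (fun j _ => Nat.zero_le (x j)) (Finset.mem_univ (0 : Fin (k+1)))
      omega
    calc ∑ i ∈ Finset.range (x 0), f (Fin.cons i (Fin.tail x)) ≤
          ∑ _i ∈ Finset.range (x 0), T := Finset.sum_le_sum h1
      _ = x 0 * T := by simp
      _ ≤ T * T := Nat.mul_le_mul_right _ hx
      _ ≤ tower 2 T := sq_le_tower _
      _ = _ := by rw [hT, tower_tower]
  | @bprod k f _ ih =>
    obtain ⟨a, ha⟩ := ih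
    refine ⟨3 + a, fun x => ?_⟩
    set T := tower a (∑ i, x i + 2) with hT
    have h1 : ∀ i ∈ Finset.range (x 0), f (Fin.cons i (Fin.tail x)) ≤ T := by
      intro i hi
      refine (ha _).trans (tower_mono _ ?_)
      have := sum_cons_tail x (Finset.mem_range.1 hi)
      omega
    have hx : x 0 ≤ T := by
      refine le_trans ?_ (le_tower a _)
      have := Finset.single_le_sum (fun j _ => Nat.zero_le (x j)) (Finset.mem_univ (0 : Fin (k+1)))
      omega
    have hT2 : 2 ≤ T := le_trans (by omega) (le_tower _ _)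
    calc ∏ i ∈ Finset.range (x 0), f (Fin.cons i (Fin.tail x)) ≤
          ∏ _i ∈ Finset.range (x 0), T := Finset.prod_le_prod' h1
      _ = T ^ x 0 := by simp
      _ ≤ T ^ T := Nat.pow_le_pow_right (by omega) hx
      _ ≤ (2 ^ T) ^ T := Nat.pow_le_pow_left Nat.lt_two_pow_self.le _
      _ = 2 ^ (T * T) := by rw [← pow_mul]
      _ ≤ 2 ^ tower 2 T := Nat.pow_le_pow_right (by norm_num) (sq_le_tower _)
      _ = tower 3 T := rfl
      _ = _ := by rw [hT, tower_tower]

/-- Unary elementary functions are bounded by an iterated exponential of fixed height. -/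
theorem elem_bound {f : ℕ → ℕ} (hf : Elem 1 fun x => f (x 0)) : ∃ h, ∀ x, f x ≤ tower h x := by
  obtain ⟨a, ha⟩ := hf.bdd
  refine ⟨a + 2, fun x => ?_⟩
  have h1 := ha fun _ => x
  simp only [Finset.univ_unique, Finset.sum_const, Finset.card_singleton, one_smul] at h1
  have h2 : x + 2 ≤ tower 2 x := by
    simp only [tower]
    rcases x with _ | x
    · norm_num
    · have h3 : x + 1 + 1 ≤ 2 ^ (x + 1) := Nat.lt_two_pow_self
      have h4 : 2 ^ (x + 1) < 2 ^ 2 ^ (x + 1) :=
        Nat.pow_lt_pow_right (by norm_num) Nat.lt_two_pow_self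
      omega
  refine h1.trans ((tower_mono a h2).trans ?_)
  rw [tower_tower]

/-- The main result for functions bounded by an iterated exponential of fixed height. -/
theorem main {f : ℕ → ℕ} (hf : ∃ h, ∀ x, f x ≤ tower h x) :
    ∃ φ : Fm 0 0 1, φ.Sentence ∧ ∀ r p, r ≤ f (max φ.len 2) → p ≤ f (max φ.len 2) →
      ¬ Recurrence (count φ) 2 r p := by
  obtain ⟨h, hh⟩ := hf
  obtain ⟨L, hL⟩ := exists_long h
  refine ⟨sent L, sent_sentence L, fun r p hr hp => no_recurrence ?_⟩
  have h1 : max (sent L).len 2 ≤ 2 ^ (17 + 7 * L) := by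
    refine max_le (len_sent L) ?_
    calc 2 = 2 ^ 1 := rfl
      _ ≤ 2 ^ (17 + 7 * L) := Nat.pow_le_pow_right (by norm_num) (by omega)
  have h2 := (hh (max (sent L).len 2)).trans (tower_mono h h1)
  omega

end Pool.Agent.Q227.CM
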