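import Pool.Agent.Q227.CM.Cyc

/-!
# The sentences and the parity of their counting sequences
-/

set_option autoImplicit false

namespace Pool.Agent.Q227.CM

/-- The relation is irreflexive, the modules containing an element form a chain, there are twins,
and the chain of some element has exactly `t_L + 1` members. -/
def sent (L : ℕ) : F :=
  .and (all 1 (.neg (adj 1 1)))
  (.and (all 0 (all 1 (all 2 (orr (le 1 2) (le 2 1)))))
  (.and (.ex 1 (.ex 2 (.and (.neg (eqv 1 2)) (.and (adj 1 2)
      (.exS 0 (.and (isMod 0) (all 3 (iff' (mm 3 0) (orr (eqv 3 1) (eqv 3 2))))))))))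
    (.ex 0 (.ex 1 (.ex 2 (.and (eqv 1 0) (.and (all 3 (le 3 2)) (D L))))))))

theorem sat_sent {α : Type} {R : α → α → Prop} {v : ℕ → α} {V : ℕ → Set α} (L : ℕ) :
    Sat (rel R) v V (sent L) ↔ (∀ x, ¬ R x x) ∧ (∀ x y z, Le R x y z ∨ Le R x z y) ∧ Twin R ∧
      ∃ x y z, Sat (rel R) (Function.update (Function.update (Function.update v 0 x) 1 y) 2 z) V
        (.and (eqv 1 0) (.and (all 3 (le 3 2)) (D L))) := by
  unfold sent
  simp only [sat_and, sat_all, sat_neg, sat_adj, sat_orr, sat_le, sat_ex, sat_exS, sat_isMod,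
    sat_iff, sat_mm, sat_eqv, ne_eq, Function.update_self, Function.update_of_ne,
    Nat.reduceEqDiff, not_false_eq_true, Twin, OfNat.zero_ne_ofNat,
    zero_ne_one, OfNat.one_ne_ofNat]

/-- A total preorder on a finite set has a rank function. -/
theorem exists_rank {α : Type} [Finite α] (r : α → α → Prop) (htot : ∀ y z, r y z ∨ r z y)
    (htrans : ∀ a b c, r a b → r b c → r a c) :
    ∃ (K : ℕ) (ρ : α → ℕ), (∀ y z, r y z ↔ ρ y ≤ ρ z) ∧ ∀ i, i < K ↔ ∃ y, ρ y = i := by
  classical
  have := Fintype.ofFinite α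
  let s : α → ℕ := fun y => (Finset.univ.filter fun w => r w y).card
  have hs : ∀ y z, r y z ↔ s y ≤ s z := by
    intro y z
    constructor
    · intro h
      refine Finset.card_le_card fun w hw => ?_
      rw [Finset.mem_filter] at hw ⊢
      exact ⟨hw.1, htrans _ _ _ hw.2 h⟩
    · intro h
      by_contra hyz
      have hzy : r z y := (htot y z).resolve_left hyz
      have hyy : r y y := by rcases htot y y with h | h <;> exact h
      have : s z < s y := by
        refine Finset.card_lt_card ?_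
        rw [Finset.ssubset_iff_of_subset]
        · exact ⟨y, Finset.mem_filter.2 ⟨Finset.mem_univ _, hyy⟩, fun hc =>
            hyz (Finset.mem_filter.1 hc).2⟩
        · intro w hw
          rw [Finset.mem_filter] at hw ⊢
          exact ⟨hw.1, htrans _ _ _ hw.2 hzy⟩
      omega
  let I : Finset ℕ := Finset.univ.image s
  let e := I.orderIsoOfFin rfl
  have hmem : ∀ y, s y ∈ I := fun y => Finset.mem_image_of_mem _ (Finset.mem_univ _)
  refine ⟨I.card, fun y => (e.symm ⟨s y, hmem y⟩ : Fin I.card), ?_, ?_⟩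
  · intro y z
    rw [hs]
    change s y ≤ s z ↔ (e.symm ⟨s y, hmem y⟩) ≤ (e.symm ⟨s z, hmem z⟩)
    rw [OrderIso.le_iff_le]
    exact Iff.rfl
  · intro i
    constructor
    · intro hi
      obtain ⟨y, _, hy⟩ := Finset.mem_image.1 (e ⟨i, hi⟩).2
      refine ⟨y, ?_⟩
      have : (⟨s y, hmem y⟩ : I) = e ⟨i, hi⟩ := Subtype.ext hy
      change ((e.symm ⟨s y, hmem y⟩ : Fin I.card) : ℕ) = i
      rw [this]
      simp
    · rintro ⟨y, rfl⟩
      exact (e.symm ⟨s y, hmem y⟩).2

theorem le_trans' {α : Type} {R : α → α → Prop} {x a b c : α} (h1 : Le R x a b)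
    (h2 : Le R x b c) : Le R x a c := fun A hA h0 hc => h1 A hA h0 (h2 A hA h0 hc)

theorem exists_ranked {α : Type} [Finite α] {R : α → α → Prop} {x : α}
    (htot : ∀ y z, Le R x y z ∨ Le R x z y) : ∃ K ρ, Ranked R x K ρ := by
  obtain ⟨K, ρ, h1, h2⟩ := exists_rank (Le R x) htot fun a b c => le_trans'
  exact ⟨K, ρ, h1, h2⟩

/-- The last part of the sentence says that the chain of `x` has `t_L + 1` members. -/
theorem sat_last {α : Type} {R : α → α → Prop} {v : ℕ → α} {V : ℕ → Set α} {x : α} {K L : ℕ}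
    {ρ : α → ℕ} (hρ : Ranked R x K ρ) :
    (∃ y z, Sat (rel R) (Function.update (Function.update (Function.update v 0 x) 1 y) 2 z) V
        (.and (eqv 1 0) (.and (all 3 (le 3 2)) (D L)))) ↔ K = tt L + 1 := by
  have hx0 : ρ x = 0 := by
    obtain ⟨y, hy⟩ := hρ.ex (i := 0) (by have := hρ.lt_K x; omega)
    have : ρ x ≤ ρ y := (hρ.le_iff x y).1 fun A _ h0 _ => h0
    omega
  have h0 : ∀ y z, Function.update (Function.update (Function.update v 0 x) 1 y) 2 z 0 = x := by
    intro y z
    simp
  constructor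
  · rintro ⟨y, z, h1, h2, h3⟩
    rw [meas_D hρ L _ _ (h0 y z)] at h3
    simp [Function.update_of_ne] at h1 h3
    subst h1
    rw [sat_all] at h2
    have h4 : ∀ w, ρ w ≤ ρ z := by
      intro w
      have := h2 w
      rw [sat_le' hρ (by simp)] at this
      simpa using this
    have h5 : K - 1 < K := by have := hρ.lt_K y; omega
    obtain ⟨w, hw⟩ := hρ.ex h5
    have h6 := h4 w
    have h7 := hρ.lt_K z
    omega
  · intro hK
    obtain ⟨z, hz⟩ := hρ.ex (i := tt L) (by omega)
    refine ⟨x, z, by simp, ?_, ?_⟩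
    · rw [sat_all]
      intro w
      rw [sat_le' hρ (by simp)]
      have := hρ.lt_K w
      simp
      omega
    · rw [meas_D hρ L _ _ (h0 x z)]
      simp
      omega

theorem models_sent {α : Type} [Finite α] {R : α → α → Prop} (L : ℕ) :
    Models (rel R) (sent L) ↔ (∀ x, ¬ R x x) ∧ (∀ x y z, Le R x y z ∨ Le R x z y) ∧ Twin R ∧
      ∃ x ρ, Ranked R x (tt L + 1) ρ := by
  unfold Models
  constructor
  · rintro ⟨v, V, h⟩
    rw [sat_sent] at h
    obtain ⟨h1, h2, h3, x, y, z, h4⟩ := h
    obtain ⟨K, ρ, hρ⟩ := exists_ranked (h2 x)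
    have := (sat_last hρ (v := v) (V := V)).1 ⟨y, z, h4⟩
    subst this
    exact ⟨h1, h2, h3, x, ρ, hρ⟩
  · rintro ⟨h1, h2, h3, x, ρ, hρ⟩
    refine ⟨fun _ => x, fun _ => ∅, ?_⟩
    rw [sat_sent]
    refine ⟨h1, h2, h3, x, ?_⟩
    exact (sat_last hρ).2 rfl

/-- All structures over the vocabulary with one binary relation symbol are of the form `rel R`. -/
theorem eq_rel {α : Type} (M : Str 0 0 1 α) : M = rel (M.2.2 0) := by
  obtain ⟨a, b, c⟩ := M
  unfold rel
  refine Prod.ext ?_ (Prod.ext ?_ ?_)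
  · funext k; exact k.elim0
  · funext k; exact k.elim0
  · funext k
    have : k = 0 := Subsingleton.elim _ _
    subst this
    rfl

/-- Small structures are not models. -/
theorem count_eq_zero {L n : ℕ} (hn : n ≤ tt L) : count (sent L) n = 0 := by
  unfold count
  rw [Nat.card_eq_zero]
  left
  refine ⟨fun ⟨M, hM⟩ => ?_⟩
  rw [eq_rel M, models_sent] at hM
  obtain ⟨_, _, _, x, ρ, hρ⟩ := hM
  have h1 : Function.Injective (fun i : Fin (tt L + 1) => (hρ.ex i.2).choose) := by
    intro i j hij
    have hi := (hρ.ex i.2).choose_spec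
    have hj := (hρ.ex j.2).choose_spec
    simp only at hij
    rw [hij, hj] at hi
    exact Fin.ext hi.symm
  have h2 := Fintype.card_le_of_injective _ h1
  simp at h2
  omega

section action

variable (h : ℕ) (φ : F)

/-- The models of `φ` on `ℤ / 2 ^ h`. -/
def Mods : Type := {R : ZMod (2 ^ h) → ZMod (2 ^ h) → Prop // Models (rel R) φ}

instance : Finite (Mods h φ) := by
  unfold Mods
  infer_instance

theorem models_shift {h : ℕ} {φ : F} (R : ZMod (2 ^ h) → ZMod (2 ^ h) → Prop)
    (hR : Models (rel R) φ) (g : ZMod (2 ^ h)) :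
    Models (rel fun x y => R (x - g) (y - g)) φ := by
  have h1 := (models_map (Equiv.addRight g) (rel R) φ).2 hR
  have h2 : mapStr (Equiv.addRight g) (rel R) = rel fun x y => R (x - g) (y - g) := by
    rw [eq_rel (mapStr (Equiv.addRight g) (rel R))]
    simp [mapStr, rel, sub_eq_add_neg]
  rwa [h2] at h1

/-- Translations act on the models. -/
instance : MulAction (Multiplicative (ZMod (2 ^ h))) (Mods h φ) where
  smul g R := ⟨fun x y => R.1 (x - g.toAdd) (y - g.toAdd), models_shift R.1 R.2 g.toAdd⟩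
  one_smul R := by
    apply Subtype.ext
    funext x y
    change R.1 (x - 0) (y - 0) = R.1 x y
    rw [sub_zero, sub_zero]
  mul_smul g g' R := by
    apply Subtype.ext
    funext x y
    change R.1 (x - (g.toAdd + g'.toAdd)) (y - (g.toAdd + g'.toAdd)) =
      R.1 (x - g.toAdd - g'.toAdd) (y - g.toAdd - g'.toAdd)
    rw [sub_sub, sub_sub]

theorem smul_val (g : Multiplicative (ZMod (2 ^ h))) (R : Mods h φ) (x y : ZMod (2 ^ h)) :
    (g • R).1 x y = R.1 (x - g.toAdd) (y - g.toAdd) := rfl

theorem card_mod : Nat.card (Mods h φ) ≡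
    Nat.card (MulAction.fixedPoints (Multiplicative (ZMod (2 ^ h))) (Mods h φ)) [MOD 2] := by
  have : Fact (Nat.Prime 2) := ⟨Nat.prime_two⟩
  have hG : IsPGroup 2 (Multiplicative (ZMod (2 ^ h))) := by
    refine IsPGroup.of_card (n := h) ?_
    rw [Nat.card_congr (Multiplicative.toAdd), Nat.card_zmod]
  exact hG.card_modEq_card_fixedPoints _

/-- The fixed points are the relations of a set of differences. -/
theorem fixed_iff (R : Mods h φ) :
    R ∈ MulAction.fixedPoints (Multiplicative (ZMod (2 ^ h))) (Mods h φ) ↔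
      R.1 = RC fun z => R.1 0 z := by
  rw [MulAction.mem_fixedPoints]
  constructor
  · intro hR
    funext x y
    have := hR (Multiplicative.ofAdd (-x))
    have h1 : ((Multiplicative.ofAdd (-x)) • R).1 0 (y - x) = R.1 0 (y - x) := by rw [this]
    rw [smul_val, toAdd_ofAdd] at h1
    change R.1 x y = R.1 0 (y - x)
    rw [← h1]
    simp
  · intro hR g
    apply Subtype.ext
    funext x y
    rw [smul_val, hR]
    unfold RC
    rw [sub_sub_sub_cancel_right]

end action

/-- The sentence has exactly one translation invariant model with `2 ^ t_L` elements. -/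
theorem card_fixed (L : ℕ) : Nat.card (MulAction.fixedPoints
    (Multiplicative (ZMod (2 ^ tt L))) (Mods (tt L) (sent L))) = 1 := by
  have hmodel : Models (rel (RC (Calt (h := tt L)))) (sent L) := by
    rw [models_sent]
    refine ⟨calt_irr, ?_, calt_twin (tt_pos L), 0, _, calt_ranked 0⟩
    intro x y z
    rw [calt_le, calt_le]
    exact le_total _ _
  rw [Nat.card_eq_one_iff_unique]
  constructor
  · refine ⟨fun ⟨R, hR⟩ ⟨R', hR'⟩ => ?_⟩
    have key : ∀ R : Mods (tt L) (sent L), R ∈ MulAction.fixedPoints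
        (Multiplicative (ZMod (2 ^ tt L))) (Mods (tt L) (sent L)) →
        R.1 = RC (Calt (h := tt L)) := by
      intro R hR
      rw [fixed_iff] at hR
      set C : ZMod (2 ^ tt L) → Prop := fun z => R.1 0 z with hC
      have h1 := R.2
      rw [hR, models_sent] at h1
      obtain ⟨h2, h3, h4, x, ρ, hρ⟩ := h1
      have h5 : Ranked (RC C) 0 (tt L + 1) (fun y => ρ (y + x)) := by
        refine ⟨?_, ?_⟩
        · intro y z
          rw [← hρ.le_iff, le_translate x]
          simp
        · intro i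
          rw [hρ.range]
          constructor
          · rintro ⟨y, hy⟩
            exact ⟨y - x, by simpa using hy⟩
          · rintro ⟨y, hy⟩
            exact ⟨_, hy⟩
      have h6 := unique_colouring (tt_pos L) h2 (h3 0) h4 h5
      rw [hR]
      congr 1
      funext z
      exact propext (h6 z)
    apply Subtype.ext
    apply Subtype.ext
    rw [key R hR, key R' hR']
  · exact ⟨⟨⟨_, hmodel⟩, (fixed_iff _ _ _).2 (by funext x y; simp [RC])⟩⟩

theorem count_odd (L : ℕ) : count (sent L) (2 ^ tt L) ≡ 1 [MOD 2] := by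
  have e : Fin (2 ^ tt L) ≃ ZMod (2 ^ tt L) := (ZMod.finEquiv (2 ^ tt L)).toEquiv
  rw [count_eq _ _ e]
  have h1 : Nat.card {M : Str 0 0 1 (ZMod (2 ^ tt L)) // Models M (sent L)} =
      Nat.card (Mods (tt L) (sent L)) := by
    refine Nat.card_congr (Equiv.subtypeEquiv ⟨fun M => M.2.2 0, rel, fun M => (eq_rel M).symm,
      fun R => rfl⟩ fun M => ?_)
    change Models M (sent L) ↔ Models (rel (M.2.2 0)) (sent L)
    rw [← eq_rel M]
  rw [h1]
  have h2 := card_mod (tt L) (sent L)
  rwa [card_fixed] at h2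

end Pool.Agent.Q227.CM
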